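import Mathlib

set_option autoImplicit false
open MeasureTheory FourierTransform

namespace Pool.Agent.RieszDense

/-- Time-side dyadic dilate and integer translate `2^{j/2} g(2^j x - k)`. -/
noncomputable def U (p : ℤ × ℤ) (g : ℝ → ℂ) (x : ℝ) : ℂ :=
  (((2 : ℝ) ^ ((p.1 : ℝ) / 2) : ℝ) : ℂ) * g ((2 : ℝ) ^ p.1 * x - (p.2 : ℝ))

/-- The modulation `exp(-2π i k x)`. -/
noncomputable def ee (k : ℤ) (x : ℝ) : ℂ := Complex.exp (-(2 * Real.pi * k * x : ℝ) * Complex.I)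

/-- Frequency-side version of `U`. -/
noncomputable def V (p : ℤ × ℤ) (G : ℝ → ℂ) (ξ : ℝ) : ℂ :=
  (((2 : ℝ) ^ (-(p.1 : ℝ) / 2) : ℝ) : ℂ) * (ee p.2 ((2 : ℝ) ^ (-p.1) * ξ) * G ((2 : ℝ) ^ (-p.1) * ξ))

lemma norm_ee (k : ℤ) (x : ℝ) : ‖ee k x‖ = 1 := by
  unfold ee
  rw [← Complex.ofReal_neg]
  exact Complex.norm_exp_ofReal_mul_I _

lemma continuous_ee (k : ℤ) : Continuous (ee k) := by
  unfold ee
  fun_prop

lemma two_zpow_pos (j : ℤ) : (0 : ℝ) < (2 : ℝ) ^ j := by positivity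

lemma two_zpow_ne (j : ℤ) : ((2 : ℝ) ^ j) ≠ 0 := (two_zpow_pos j).ne'

lemma sq_two_rpow_half (j : ℤ) : ((2 : ℝ) ^ ((j : ℝ) / 2)) ^ 2 = (2 : ℝ) ^ j := by
  rw [← Real.rpow_natCast, ← Real.rpow_mul (by norm_num)]
  rw [show ((j : ℝ) / 2 * ((2 : ℕ) : ℝ)) = (j : ℝ) by push_cast; ring]
  exact Real.rpow_intCast 2 j

lemma sq_two_rpow_neg_half (j : ℤ) : ((2 : ℝ) ^ (-(j : ℝ) / 2)) ^ 2 = (2 : ℝ) ^ (-j) := by
  have := sq_two_rpow_half (-j)
  push_cast at this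
  exact this

/-- Scaling by `a ≠ 0` and shifting is quasi measure preserving on `ℝ`. -/
lemma qmp_affine (a b : ℝ) (ha : a ≠ 0) :
    Measure.QuasiMeasurePreserving (fun x : ℝ => a * x - b) volume volume := by
  refine ⟨by fun_prop, ?_⟩
  have h1 : (fun x : ℝ => a * x - b) = (fun x => x - b) ∘ (fun x => a * x) := rfl
  rw [h1, ← Measure.map_map (by fun_prop) (by fun_prop), Real.map_volume_mul_left ha,
    Measure.map_smul]
  have h2 : Measure.map (fun x : ℝ => x - b) volume = volume := by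
    simp only [sub_eq_add_neg]
    exact map_add_right_eq_self volume (-b)
  rw [h2]
  exact Measure.smul_absolutelyContinuous

lemma map_affine (a b : ℝ) (ha : a ≠ 0) :
    Measure.map (fun x : ℝ => a * x - b) volume = ENNReal.ofReal |a⁻¹| • volume := by
  have h1 : (fun x : ℝ => a * x - b) = (fun x => x - b) ∘ (fun x => a * x) := rfl
  rw [h1, ← Measure.map_map (by fun_prop) (by fun_prop), Real.map_volume_mul_left ha,
    Measure.map_smul]
  have h2 : Measure.map (fun x : ℝ => x - b) volume = volume := by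
    simp only [sub_eq_add_neg]
    exact map_add_right_eq_self volume (-b)
  rw [h2]

lemma aesm_comp_affine {g : ℝ → ℂ} (hg : AEStronglyMeasurable g volume) (a b : ℝ) (ha : a ≠ 0) :
    AEStronglyMeasurable (fun x => g (a * x - b)) volume :=
  hg.comp_quasiMeasurePreserving (qmp_affine a b ha)

lemma integral_comp_affine (g : ℝ → ℂ) (a b : ℝ) :
    ∫ x, g (a * x - b) = (|a⁻¹| : ℝ) • ∫ x, g x := by
  rw [Measure.integral_comp_mul_left (fun x => g (x - b)) a, integral_sub_right_eq_self]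

lemma integral_comp_affine_real (g : ℝ → ℝ) (a b : ℝ) :
    ∫ x, g (a * x - b) = |a⁻¹| * ∫ x, g x := by
  rw [Measure.integral_comp_mul_left (fun x => g (x - b)) a, integral_sub_right_eq_self, smul_eq_mul]

lemma lintegral_comp_affine (g : ℝ → ENNReal) (hg : AEMeasurable g volume) (a b : ℝ) (ha : a ≠ 0) :
    ∫⁻ x, g (a * x - b) = ENNReal.ofReal |a⁻¹| * ∫⁻ x, g x := by
  have h := map_affine a b ha
  have h2 : AEMeasurable g (Measure.map (fun x : ℝ => a * x - b) volume) := by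
    rw [h]; exact hg.smul_measure _
  rw [← lintegral_map' h2 (by fun_prop), h, lintegral_smul_measure, smul_eq_mul]


/-- The squared norm of an `L²` class is the integral of the squared modulus. -/
lemma norm_toLp_sq {g : ℝ → ℂ} (hg : MemLp g 2 (volume : Measure ℝ)) :
    ‖hg.toLp g‖ ^ 2 = ∫ x, ‖g x‖ ^ 2 := by
  have h1 := @inner_self_eq_norm_sq_to_K ℂ _ _ _ _ (hg.toLp g)
  rw [L2.inner_def] at h1
  have h2 : ∫ a, inner ℂ ((hg.toLp g) a) ((hg.toLp g) a) = ((∫ x, ‖g x‖ ^ 2 : ℝ) : ℂ) := by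
    rw [← integral_complex_ofReal]
    apply integral_congr_ae
    filter_upwards [hg.coeFn_toLp] with x hx
    rw [hx, inner_self_eq_norm_sq_to_K]
    simp
  rw [h2] at h1
  have h3 : (((∫ x, ‖g x‖ ^ 2 : ℝ)) : ℂ) = ((‖hg.toLp g‖ ^ 2 : ℝ) : ℂ) := by
    rw [h1]; simp
  exact (Complex.ofReal_injective h3).symm

lemma norm_lp_sq (g : Lp ℂ 2 (volume : Measure ℝ)) :
    ‖g‖ ^ 2 = ∫ x, ‖g x‖ ^ 2 := by
  have h := norm_toLp_sq (Lp.memLp g)
  rwa [Lp.toLp_coeFn] at h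

lemma memLp_two_iff' {g : ℝ → ℂ} (hg : AEStronglyMeasurable g (volume : Measure ℝ)) :
    MemLp g 2 (volume : Measure ℝ) ↔ Integrable (fun x => ‖g x‖ ^ 2) (volume : Measure ℝ) :=
  memLp_two_iff_integrable_sq_norm hg

lemma norm_U (p : ℤ × ℤ) (g : ℝ → ℂ) (x : ℝ) :
    ‖U p g x‖ ^ 2 = (2 : ℝ) ^ p.1 * ‖g ((2 : ℝ) ^ p.1 * x - (p.2 : ℝ))‖ ^ 2 := by
  unfold U
  rw [norm_mul, mul_pow, Complex.norm_real, Real.norm_eq_abs, sq_abs, sq_two_rpow_half]

lemma norm_V (p : ℤ × ℤ) (g : ℝ → ℂ) (x : ℝ) :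
    ‖V p g x‖ ^ 2 = (2 : ℝ) ^ (-p.1) * ‖g ((2 : ℝ) ^ (-p.1) * x)‖ ^ 2 := by
  unfold V
  rw [norm_mul, mul_pow, Complex.norm_real, Real.norm_eq_abs, sq_abs, sq_two_rpow_neg_half,
    norm_mul, norm_ee, one_mul]

lemma integral_norm_U (p : ℤ × ℤ) (g : ℝ → ℂ) :
    ∫ x, ‖U p g x‖ ^ 2 = ∫ x, ‖g x‖ ^ 2 := by
  simp_rw [norm_U]
  rw [integral_const_mul, integral_comp_affine_real (fun x => ‖g x‖ ^ 2)]
  rw [abs_of_pos (by positivity), ← mul_assoc, mul_inv_cancel₀ (two_zpow_ne _), one_mul]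

lemma integral_norm_V (p : ℤ × ℤ) (g : ℝ → ℂ) :
    ∫ x, ‖V p g x‖ ^ 2 = ∫ x, ‖g x‖ ^ 2 := by
  simp_rw [norm_V]
  rw [integral_const_mul]
  have := integral_comp_affine_real (fun x => ‖g x‖ ^ 2) ((2 : ℝ) ^ (-p.1)) 0
  simp only [sub_zero] at this
  rw [this, abs_of_pos (by positivity), ← mul_assoc, mul_inv_cancel₀ (two_zpow_ne _), one_mul]

lemma memLp_U (p : ℤ × ℤ) {g : ℝ → ℂ} (hg : MemLp g 2 (volume : Measure ℝ)) :
    MemLp (U p g) 2 (volume : Measure ℝ) := by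
  have h1 : AEStronglyMeasurable (U p g) (volume : Measure ℝ) := by
    unfold U
    exact (aesm_comp_affine hg.1 _ _ (two_zpow_ne _)).const_mul _
  rw [memLp_two_iff' h1]
  simp_rw [norm_U]
  have h2 := (memLp_two_iff' hg.1).1 hg
  exact ((h2.comp_sub_right (p.2 : ℝ)).comp_mul_left' (two_zpow_ne p.1)).const_mul _

lemma memLp_V (p : ℤ × ℤ) {g : ℝ → ℂ} (hg : MemLp g 2 (volume : Measure ℝ)) :
    MemLp (V p g) 2 (volume : Measure ℝ) := by
  have h1 : AEStronglyMeasurable (V p g) (volume : Measure ℝ) := by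
    unfold V
    have := aesm_comp_affine hg.1 ((2 : ℝ) ^ (-p.1)) 0 (two_zpow_ne _)
    simp only [sub_zero] at this
    refine AEStronglyMeasurable.const_mul (AEStronglyMeasurable.mul ?_ this) _
    exact ((continuous_ee p.2).comp (by fun_prop)).aestronglyMeasurable
  rw [memLp_two_iff' h1]
  simp_rw [norm_V]
  have h2 := (memLp_two_iff' hg.1).1 hg
  exact (h2.comp_mul_left' (two_zpow_ne _)).const_mul _

lemma ae_comp_affine {g h : ℝ → ℂ} (hgh : g =ᵐ[volume] h) (a b : ℝ) (ha : a ≠ 0) :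
    (fun x => g (a * x - b)) =ᵐ[volume] (fun x => h (a * x - b)) :=
  (qmp_affine a b ha).ae_eq_comp hgh

lemma U_congr (p : ℤ × ℤ) {g h : ℝ → ℂ} (hgh : g =ᵐ[volume] h) :
    U p g =ᵐ[volume] U p h := by
  filter_upwards [ae_comp_affine hgh ((2 : ℝ) ^ p.1) (p.2 : ℝ) (two_zpow_ne _)] with x hx
  unfold U
  rw [hx]

lemma V_congr (p : ℤ × ℤ) {g h : ℝ → ℂ} (hgh : g =ᵐ[volume] h) :
    V p g =ᵐ[volume] V p h := by
  have := ae_comp_affine hgh ((2 : ℝ) ^ (-p.1)) 0 (two_zpow_ne _)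
  simp only [sub_zero] at this
  filter_upwards [this] with x hx
  unfold V
  rw [hx]

lemma U_sub (p : ℤ × ℤ) (g h : ℝ → ℂ) : U p (g - h) = U p g - U p h := by
  ext x; simp [U, mul_sub]

lemma V_sub (p : ℤ × ℤ) (g h : ℝ → ℂ) : V p (g - h) = V p g - V p h := by
  ext x; simp [V, mul_sub]

/-- `U p` on `L²` classes. -/
noncomputable def Uc (p : ℤ × ℤ) (g : Lp ℂ 2 (volume : Measure ℝ)) : Lp ℂ 2 (volume : Measure ℝ) :=
  (memLp_U p (Lp.memLp g)).toLp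

/-- `V p` on `L²` classes. -/
noncomputable def Vc (p : ℤ × ℤ) (g : Lp ℂ 2 (volume : Measure ℝ)) : Lp ℂ 2 (volume : Measure ℝ) :=
  (memLp_V p (Lp.memLp g)).toLp

lemma isometry_Uc (p : ℤ × ℤ) : Isometry (Uc p) := by
  refine Isometry.of_dist_eq fun g h => ?_
  rw [dist_eq_norm, dist_eq_norm]
  have h1 : ‖Uc p g - Uc p h‖ ^ 2 = ‖g - h‖ ^ 2 := by
    rw [norm_lp_sq, norm_lp_sq (g - h), ← integral_norm_U p (g - h : Lp ℂ 2 (volume : Measure ℝ))]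
    apply integral_congr_ae
    have e1 := (memLp_U p (Lp.memLp g)).coeFn_toLp
    have e2 := (memLp_U p (Lp.memLp h)).coeFn_toLp
    have e3 := U_congr p (Lp.coeFn_sub g h)
    filter_upwards [Lp.coeFn_sub (Uc p g) (Uc p h), e1, e2, e3] with x a1 a2 a3 a4
    rw [a4, a1, U_sub]
    simp only [Pi.sub_apply]
    unfold Uc
    rw [a2, a3]
  exact (sq_eq_sq₀ (norm_nonneg _) (norm_nonneg _)).1 h1

lemma isometry_Vc (p : ℤ × ℤ) : Isometry (Vc p) := by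
  refine Isometry.of_dist_eq fun g h => ?_
  rw [dist_eq_norm, dist_eq_norm]
  have h1 : ‖Vc p g - Vc p h‖ ^ 2 = ‖g - h‖ ^ 2 := by
    rw [norm_lp_sq, norm_lp_sq (g - h), ← integral_norm_V p (g - h : Lp ℂ 2 (volume : Measure ℝ))]
    apply integral_congr_ae
    have e1 := (memLp_V p (Lp.memLp g)).coeFn_toLp
    have e2 := (memLp_V p (Lp.memLp h)).coeFn_toLp
    have e3 := V_congr p (Lp.coeFn_sub g h)
    filter_upwards [Lp.coeFn_sub (Vc p g) (Vc p h), e1, e2, e3] with x a1 a2 a3 a4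
    rw [a4, a1, V_sub]
    simp only [Pi.sub_apply]
    unfold Vc
    rw [a2, a3]
  exact (sq_eq_sq₀ (norm_nonneg _) (norm_nonneg _)).1 h1

/-- The Fourier transform intertwines `U p` and `V p` (integral version, any function). -/
lemma fourier_U_fun (p : ℤ × ℤ) (g : ℝ → ℂ) : 𝓕 (U p g) = V p (𝓕 g) := by
  ext ξ
  rw [Real.fourier_real_eq_integral_exp_smul]
  unfold V
  rw [Real.fourier_real_eq_integral_exp_smul]
  set F : ℝ → ℂ := fun y : ℝ => (((2 : ℝ) ^ ((p.1 : ℝ) / 2) : ℝ) : ℂ) * (ee p.2 ((2 : ℝ) ^ (-p.1) * ξ) *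
        (Complex.exp (((-2 * Real.pi * y * ((2 : ℝ) ^ (-p.1) * ξ) : ℝ) : ℂ) * Complex.I) • g y)) with hF
  have h1 : ∀ v : ℝ, Complex.exp (((-2 * Real.pi * v * ξ : ℝ) : ℂ) * Complex.I) • U p g v =
      F ((2 : ℝ) ^ p.1 * v - (p.2 : ℝ)) := by
    intro v
    simp only [hF, smul_eq_mul]
    unfold U ee
    rw [← mul_assoc (Complex.exp _) (Complex.exp _), ← Complex.exp_add]
    rw [mul_left_comm]
    congr 3
    have : (-2 * Real.pi * v * ξ : ℝ) = -(2 * Real.pi * p.2 * ((2 : ℝ) ^ (-p.1) * ξ) : ℝ) +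
      (-2 * Real.pi * ((2 : ℝ) ^ p.1 * v - (p.2 : ℝ)) * ((2 : ℝ) ^ (-p.1) * ξ) : ℝ) := by
      rw [zpow_neg]
      field_simp
      ring
    rw [this]
    push_cast
    ring
  simp_rw [h1]
  rw [integral_comp_affine, hF, integral_const_mul, integral_const_mul]
  rw [Complex.real_smul, ← mul_assoc]
  congr 1
  rw [← Complex.ofReal_mul]
  congr 1
  rw [abs_of_pos (by positivity), ← Real.rpow_intCast, ← Real.rpow_neg (by norm_num),
    ← Real.rpow_add (by norm_num)]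
  congr 1
  ring


open SchwartzMap in
/-- `U p` of a Schwartz function, as a Schwartz function. -/
noncomputable def US (p : ℤ × ℤ) (φ : 𝓢(ℝ, ℂ)) : 𝓢(ℝ, ℂ) :=
  (((2 : ℝ) ^ ((p.1 : ℝ) / 2) : ℝ) : ℂ) •
    (compCLMOfContinuousLinearEquiv ℂ
      (ContinuousLinearEquiv.unitsEquivAut ℝ (Units.mk0 ((2 : ℝ) ^ p.1) (two_zpow_ne p.1)))
      (φ.compSubConstCLM ℂ (p.2 : ℝ)))

open SchwartzMap in
lemma US_coe (p : ℤ × ℤ) (φ : 𝓢(ℝ, ℂ)) : ⇑(US p φ) = U p φ := by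
  ext x
  simp only [US, U, smul_apply, smul_eq_mul]
  congr 1
  rw [compCLMOfContinuousLinearEquiv_apply]
  simp only [Function.comp_apply, compSubConstCLM_apply, ContinuousLinearEquiv.unitsEquivAut_apply,
    Units.val_mk0]
  rw [mul_comm]

open SchwartzMap in
lemma Uc_toLp (p : ℤ × ℤ) (φ : 𝓢(ℝ, ℂ)) : Uc p (φ.toLp 2) = (US p φ).toLp 2 := by
  apply Lp.ext
  have e1 := (memLp_U p (Lp.memLp (φ.toLp 2 (volume : Measure ℝ)))).coeFn_toLp
  filter_upwards [e1, U_congr p (φ.coeFn_toLp 2), (US p φ).coeFn_toLp 2] with x a1 a2 a3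
  unfold Uc
  rw [a1, a2, a3, US_coe]

open SchwartzMap in
lemma fourier_US (p : ℤ × ℤ) (φ : 𝓢(ℝ, ℂ)) :
    ⇑(𝓕 (US p φ) : 𝓢(ℝ, ℂ)) = V p ⇑(𝓕 φ : 𝓢(ℝ, ℂ)) := by
  rw [SchwartzMap.fourier_coe, US_coe, fourier_U_fun, SchwartzMap.fourier_coe]

open SchwartzMap in
lemma Vc_fourier (p : ℤ × ℤ) (φ : 𝓢(ℝ, ℂ)) :
    Vc p ((𝓕 φ).toLp 2) = (𝓕 (US p φ)).toLp 2 := by
  apply Lp.ext
  have e1 := (memLp_V p (Lp.memLp ((𝓕 φ).toLp 2 (volume : Measure ℝ)))).coeFn_toLp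
  filter_upwards [e1, V_congr p ((𝓕 φ).coeFn_toLp 2), (𝓕 (US p φ)).coeFn_toLp 2] with x a1 a2 a3
  unfold Vc
  rw [a1, a2, a3, fourier_US]

open SchwartzMap in
/-- The `L²` Fourier transform intertwines `Uc p` and `Vc p`. -/
theorem fourier_Uc (p : ℤ × ℤ) (g : Lp ℂ 2 (volume : Measure ℝ)) :
    𝓕 (Uc p g) = Vc p (𝓕 g) := by
  have hd : DenseRange ⇑(SchwartzMap.toLpCLM ℂ (E := ℝ) ℂ 2 (volume : Measure ℝ)) :=
    SchwartzMap.denseRange_toLpCLM ENNReal.ofNat_ne_top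
  have hc : Continuous (fun f : Lp ℂ 2 (volume : Measure ℝ) => (𝓕 f : Lp ℂ 2 (volume : Measure ℝ))) :=
    (Lp.fourierTransformₗᵢ ℝ ℂ).continuous
  have key := hd.equalizer (g := fun f => 𝓕 (Uc p f)) (h := fun f => Vc p (𝓕 f))
    (hc.comp (isometry_Uc p).continuous) ((isometry_Vc p).continuous.comp hc) (by
      ext φ : 1
      simp only [Function.comp_apply, SchwartzMap.toLpCLM_apply]
      rw [Uc_toLp, SchwartzMap.toLp_fourier_eq, SchwartzMap.toLp_fourier_eq, Vc_fourier])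
  exact congrFun key g

end Pool.Agent.RieszDense
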