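import Mathlib
import Pool.Agent.Lib_MP_8a7e24_an.TimeFreq

set_option autoImplicit false
open MeasureTheory FourierTransform

namespace Pool.Agent.RieszDense

/-- The unit interval `(-1/2, 1/2]`. -/
def II : Set ℝ := Set.Ioc (-(1/2) : ℝ) (1/2)

/-- The combinatorial data of the wavelet set used in the construction. -/
structure IsW (D G B : Set ℝ) (N M : ℤ) : Prop where
  mD : MeasurableSet D
  mG : MeasurableSet G
  mB : MeasurableSet B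
  union : ∀ x : ℝ, x ∈ II ↔ x ∈ G ∨ x ∈ B
  disj : ∀ x : ℝ, x ∈ G → x ∉ B
  GD : G ⊆ D
  tile : ∀ x : ℝ, (2 : ℝ) ^ M * x - N ∈ B ↔ (x ∈ D ∧ x ∉ G)
  cover : ∀ x : ℝ, x ≠ 0 → ∃ j : ℤ, (2 : ℝ) ^ j * x ∈ D
  uniq : ∀ x : ℝ, x ∈ D → ∀ j : ℤ, (2 : ℝ) ^ j * x ∈ D → j = 0

section sets
variable {D G B : Set ℝ} {N M : ℤ}

lemma IsW.one_G (h : IsW D G B N M) {x : ℝ} {i j : ℤ} (hi : (2 : ℝ) ^ i * x ∈ G)
    (hj : (2 : ℝ) ^ j * x ∈ G) : i = j := by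
  have h1 := h.uniq _ (h.GD hi) (j - i) (by
    rw [← mul_assoc, ← zpow_add₀ (by norm_num : (2 : ℝ) ≠ 0)]
    rw [show j - i + i = j by ring]
    exact h.GD hj)
  omega

lemma IsW.B_to_D (h : IsW D G B N M) {x : ℝ} {i : ℤ} (hi : (2 : ℝ) ^ i * x - N ∈ B) :
    (2 : ℝ) ^ (i - M) * x ∈ D ∧ (2 : ℝ) ^ (i - M) * x ∉ G := by
  rw [← h.tile, ← mul_assoc, ← zpow_add₀ (by norm_num : (2 : ℝ) ≠ 0)]
  rwa [show M + (i - M) = i by ring]

lemma IsW.one_B (h : IsW D G B N M) {x : ℝ} {i j : ℤ} (hi : (2 : ℝ) ^ i * x - N ∈ B)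
    (hj : (2 : ℝ) ^ j * x - N ∈ B) : i = j := by
  have h1 := (h.B_to_D hi).1
  have h2 := (h.B_to_D hj).1
  have h3 := h.uniq _ h1 (j - i) (by
    rw [← mul_assoc, ← zpow_add₀ (by norm_num : (2 : ℝ) ≠ 0)]
    rwa [show j - i + (i - M) = j - M by ring])
  omega

lemma IsW.not_both (h : IsW D G B N M) {x : ℝ} {i j : ℤ} (hi : (2 : ℝ) ^ i * x ∈ G)
    (hj : (2 : ℝ) ^ j * x - N ∈ B) : False := by
  have h1 := h.B_to_D hj
  have h3 := h.uniq _ h1.1 (i - (j - M)) (by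
    rw [← mul_assoc, ← zpow_add₀ (by norm_num : (2 : ℝ) ≠ 0)]
    rw [show i - (j - M) + (j - M) = i by ring]
    exact h.GD hi)
  have h4 : i = j - M := by omega
  rw [h4] at hi
  exact h1.2 hi

lemma IsW.or (h : IsW D G B N M) {x : ℝ} (hx : x ≠ 0) :
    (∃ j : ℤ, (2 : ℝ) ^ j * x ∈ G) ∨ (∃ j : ℤ, (2 : ℝ) ^ j * x - N ∈ B) := by
  obtain ⟨j, hj⟩ := h.cover x hx
  by_cases hG : (2 : ℝ) ^ j * x ∈ G
  · exact Or.inl ⟨j, hG⟩
  · right
    refine ⟨M + j, ?_⟩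
    rw [zpow_add₀ (by norm_num : (2 : ℝ) ≠ 0), mul_assoc, h.tile]
    exact ⟨hj, hG⟩

lemma IsW.not_GB (h : IsW D G B N M) {x : ℝ} (hx : x ∈ G) (hx' : x - N ∈ B) : False :=
  h.not_both (x := x) (i := 0) (j := 0) (by simpa using hx) (by simpa using hx')

end sets

section sums

/-- Trigonometric polynomial of level `j`. -/
noncomputable def TT (K : Finset ℤ) (c : ℤ × ℤ → ℂ) (j : ℤ) (x : ℝ) : ℂ :=
  ∑ k ∈ K, c (j, k) * ee k x

/-- The synthesis sum. -/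
noncomputable def SS (J K : Finset ℤ) (c : ℤ × ℤ → ℂ) (H : ℝ → ℂ) (ξ : ℝ) : ℂ :=
  ∑ j ∈ J, ∑ k ∈ K, c (j, k) * V (j, k) H ξ

/-- One level of the synthesis sum. -/
noncomputable def term (K : Finset ℤ) (c : ℤ × ℤ → ℂ) (H : ℝ → ℂ) (j : ℤ) (ξ : ℝ) : ℂ :=
  (((2 : ℝ) ^ (-(j : ℝ) / 2) : ℝ) : ℂ) *
    (TT K c j ((2 : ℝ) ^ (-j) * ξ) * H ((2 : ℝ) ^ (-j) * ξ))

lemma SS_eq (J K : Finset ℤ) (c : ℤ × ℤ → ℂ) (H : ℝ → ℂ) (ξ : ℝ) :
    SS J K c H ξ = ∑ j ∈ J, term K c H j ξ := by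
  unfold SS term TT V
  apply Finset.sum_congr rfl
  intro j _
  rw [Finset.sum_mul, Finset.mul_sum]
  apply Finset.sum_congr rfl
  intro k _
  ring

lemma continuous_TT (K : Finset ℤ) (c : ℤ × ℤ → ℂ) (j : ℤ) : Continuous (TT K c j) := by
  unfold TT
  exact continuous_finsetSum _ fun k _ => (continuous_ee k).const_mul _

lemma norm_TT_le (K : Finset ℤ) (c : ℤ × ℤ → ℂ) (j : ℤ) (x : ℝ) :
    ‖TT K c j x‖ ≤ ∑ k ∈ K, ‖c (j, k)‖ := by
  unfold TT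
  refine (norm_sum_le _ _).trans (Finset.sum_le_sum fun k _ => ?_)
  rw [norm_mul, norm_ee, mul_one]

lemma ee_add_int (k : ℤ) (x : ℝ) (n : ℤ) : ee k (x + n) = ee k x := by
  unfold ee
  have : (-(2 * Real.pi * k * (x + n) : ℝ) : ℂ) * Complex.I =
      (-(2 * Real.pi * k * x : ℝ) : ℂ) * Complex.I + ((-(k * n) : ℤ) : ℂ) * (2 * Real.pi * Complex.I) := by
    push_cast
    ring
  rw [this, Complex.exp_add, Complex.exp_int_mul_two_pi_mul_I, mul_one]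

lemma TT_add_int (K : Finset ℤ) (c : ℤ × ℤ → ℂ) (j : ℤ) (x : ℝ) (n : ℤ) :
    TT K c j (x + n) = TT K c j x := by
  unfold TT
  simp_rw [ee_add_int]

lemma memLp_TT_mul (K : Finset ℤ) (c : ℤ × ℤ → ℂ) (j : ℤ) {H : ℝ → ℂ}
    (hH : MemLp H 2 (volume : Measure ℝ)) :
    MemLp (fun x => TT K c j x * H x) 2 (volume : Measure ℝ) := by
  have h1 : MemLp (fun x => (∑ k ∈ K, ‖c (j, k)‖) • H x) 2 (volume : Measure ℝ) :=
    hH.const_smul (∑ k ∈ K, ‖c (j, k)‖)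
  refine h1.mono ?_ ?_
  · exact (continuous_TT K c j).aestronglyMeasurable.mul hH.1
  · refine Filter.Eventually.of_forall fun x => ?_
    rw [norm_mul, norm_smul]
    refine mul_le_mul_of_nonneg_right ?_ (norm_nonneg _)
    exact (norm_TT_le K c j x).trans (le_abs_self _)

/-- The quadratic quantity attached to level `j`. -/
noncomputable def QQ (K : Finset ℤ) (c : ℤ × ℤ → ℂ) (H : ℝ → ℂ) (j : ℤ) : ℝ :=
  ∫ x, ‖TT K c j x * H x‖ ^ 2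

lemma QQ_integrable (K : Finset ℤ) (c : ℤ × ℤ → ℂ) (j : ℤ) {H : ℝ → ℂ}
    (hH : MemLp H 2 (volume : Measure ℝ)) :
    Integrable (fun x => ‖TT K c j x * H x‖ ^ 2) (volume : Measure ℝ) :=
  (memLp_two_iff' (memLp_TT_mul K c j hH).1).1 (memLp_TT_mul K c j hH)

lemma norm_term_sq (K : Finset ℤ) (c : ℤ × ℤ → ℂ) (H : ℝ → ℂ) (j : ℤ) (ξ : ℝ) :
    ‖term K c H j ξ‖ ^ 2 = (2 : ℝ) ^ (-j) *
      ‖TT K c j ((2 : ℝ) ^ (-j) * ξ) * H ((2 : ℝ) ^ (-j) * ξ)‖ ^ 2 := by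
  unfold term
  rw [norm_mul, mul_pow, Complex.norm_real, Real.norm_eq_abs, sq_abs, sq_two_rpow_neg_half]

lemma integral_term (K : Finset ℤ) (c : ℤ × ℤ → ℂ) (H : ℝ → ℂ) (j : ℤ) :
    ∫ ξ, ‖term K c H j ξ‖ ^ 2 = QQ K c H j := by
  simp_rw [norm_term_sq]
  rw [integral_const_mul]
  have := integral_comp_affine_real (fun x => ‖TT K c j x * H x‖ ^ 2) ((2 : ℝ) ^ (-j)) 0
  simp only [sub_zero] at this
  rw [this, abs_of_pos (by positivity), ← mul_assoc, mul_inv_cancel₀ (two_zpow_ne _), one_mul]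
  rfl

lemma integrable_term (K : Finset ℤ) (c : ℤ × ℤ → ℂ) {H : ℝ → ℂ}
    (hH : MemLp H 2 (volume : Measure ℝ)) (j : ℤ) :
    Integrable (fun ξ => ‖term K c H j ξ‖ ^ 2) (volume : Measure ℝ) := by
  simp_rw [norm_term_sq]
  exact ((QQ_integrable K c j hH).comp_mul_left' (two_zpow_ne _)).const_mul _

lemma int_SS_one (J K : Finset ℤ) (c : ℤ × ℤ → ℂ) {H : ℝ → ℂ}
    (hH : MemLp H 2 (volume : Measure ℝ))
    (hone : ∀ (ξ : ℝ) (i j : ℤ), H ((2 : ℝ) ^ (-i) * ξ) ≠ 0 → H ((2 : ℝ) ^ (-j) * ξ) ≠ 0 → i = j) :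
    ∫ ξ, ‖SS J K c H ξ‖ ^ 2 = ∑ j ∈ J, QQ K c H j := by
  have h1 : ∀ ξ : ℝ, ‖SS J K c H ξ‖ ^ 2 = ∑ j ∈ J, ‖term K c H j ξ‖ ^ 2 := by
    intro ξ
    rw [SS_eq]
    by_cases hex : ∃ i ∈ J, H ((2 : ℝ) ^ (-i) * ξ) ≠ 0
    · obtain ⟨i, hiJ, hi⟩ := hex
      have h0 : ∀ j ∈ J, j ≠ i → term K c H j ξ = 0 := by
        intro j _ hji
        have : H ((2 : ℝ) ^ (-j) * ξ) = 0 := by
          by_contra hne
          exact hji (hone ξ j i hne hi)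
        unfold term
        rw [this, mul_zero, mul_zero]
      rw [Finset.sum_eq_single_of_mem i hiJ h0]
      rw [Finset.sum_eq_single_of_mem i hiJ (fun j hj hji => by rw [h0 j hj hji]; simp)]
    · push Not at hex
      have h0 : ∀ j ∈ J, term K c H j ξ = 0 := by
        intro j hj
        unfold term
        rw [hex j hj, mul_zero, mul_zero]
      rw [Finset.sum_eq_zero h0, Finset.sum_eq_zero (fun j hj => by rw [h0 j hj]; simp)]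
      simp
  simp_rw [h1]
  rw [integral_finsetSum _ (fun j _ => integrable_term K c hH j)]
  simp_rw [integral_term]

lemma int_SS_le (J K : Finset ℤ) (c : ℤ × ℤ → ℂ) {H : ℝ → ℂ}
    (hH : MemLp H 2 (volume : Measure ℝ)) (L : ℕ)
    (hL : ∀ (ξ : ℝ), ∃ s : Finset ℤ, s.card ≤ L ∧ ∀ j : ℤ, H ((2 : ℝ) ^ (-j) * ξ) ≠ 0 → j ∈ s) :
    ∫ ξ, ‖SS J K c H ξ‖ ^ 2 ≤ L * ∑ j ∈ J, QQ K c H j := by
  have h1 : ∀ ξ : ℝ, ‖SS J K c H ξ‖ ^ 2 ≤ L * ∑ j ∈ J, ‖term K c H j ξ‖ ^ 2 := by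
    intro ξ
    obtain ⟨s, hs, hs'⟩ := hL ξ
    rw [SS_eq]
    have h2 : ∑ j ∈ J, term K c H j ξ = ∑ j ∈ J ∩ s, term K c H j ξ := by
      symm
      apply Finset.sum_subset Finset.inter_subset_left
      intro j hj hjs
      have : H ((2 : ℝ) ^ (-j) * ξ) = 0 := by
        by_contra hne
        exact hjs (Finset.mem_inter.2 ⟨hj, hs' j hne⟩)
      unfold term
      rw [this, mul_zero, mul_zero]
    rw [h2]
    calc ‖∑ j ∈ J ∩ s, term K c H j ξ‖ ^ 2 ≤ (∑ j ∈ J ∩ s, ‖term K c H j ξ‖) ^ 2 := by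
          gcongr
          exact norm_sum_le _ _
      _ ≤ (J ∩ s).card * ∑ j ∈ J ∩ s, ‖term K c H j ξ‖ ^ 2 := sq_sum_le_card_mul_sum_sq
      _ ≤ L * ∑ j ∈ J, ‖term K c H j ξ‖ ^ 2 := by
          gcongr
          · exact (Finset.card_le_card Finset.inter_subset_right).trans hs
          · exact Finset.inter_subset_left
  calc ∫ ξ, ‖SS J K c H ξ‖ ^ 2 ≤ ∫ ξ, L * ∑ j ∈ J, ‖term K c H j ξ‖ ^ 2 := by
        apply integral_mono_of_nonneg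
        · exact Filter.Eventually.of_forall fun ξ => by positivity
        · exact (integrable_finsetSum _ fun j _ => integrable_term K c hH j).const_mul _
        · exact Filter.Eventually.of_forall h1
    _ = L * ∑ j ∈ J, QQ K c H j := by
        rw [integral_const_mul, integral_finsetSum _ (fun j _ => integrable_term K c hH j)]
        simp_rw [integral_term]

end sums

end Pool.Agent.RieszDense
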