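import Mathlib
import Pool.Agent.Lib_MP_8a7e24_an.Core

set_option autoImplicit false
open MeasureTheory FourierTransform

namespace Pool.Agent.RieszDense

lemma integral_ee (m : ℤ) : ∫ x in (-(1/2) : ℝ)..(1/2), ee m x = if m = 0 then 1 else 0 := by
  split_ifs with hm
  · subst hm
    unfold ee
    simp
    norm_num
  · have h1 : ∀ x : ℝ, ee m x = Complex.exp ((-(2 * Real.pi * m : ℝ) * Complex.I : ℂ) * x) := by
      intro x
      unfold ee
      congr 1
      push_cast
      ring
    simp_rw [h1]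
    have hc : (-(2 * Real.pi * m : ℝ) * Complex.I : ℂ) ≠ 0 := by
      apply mul_ne_zero _ Complex.I_ne_zero
      rw [neg_ne_zero]
      norm_cast
      have : (m : ℝ) ≠ 0 := by exact_mod_cast hm
      positivity
    rw [integral_exp_mul_complex hc]
    have h2 : Complex.exp ((-(2 * Real.pi * m : ℝ) * Complex.I : ℂ) * ((1/2 : ℝ) : ℂ)) =
        Complex.exp ((-(2 * Real.pi * m : ℝ) * Complex.I : ℂ) * ((-(1/2) : ℝ) : ℂ)) := by
      rw [Complex.exp_eq_exp_iff_exists_int]
      refine ⟨-m, ?_⟩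
      push_cast
      ring
    rw [h2, sub_self, zero_div]

lemma ee_mul_conj (k l : ℤ) (x : ℝ) :
    ee k x * (starRingEnd ℂ) (ee l x) = ee (k - l) x := by
  unfold ee
  rw [← Complex.exp_conj, ← Complex.exp_add]
  congr 1
  simp only [map_mul, map_neg, Complex.conj_ofReal, Complex.conj_I]
  push_cast
  ring

/-- Parseval for trigonometric polynomials. -/
lemma parseval_TT (K : Finset ℤ) (c : ℤ × ℤ → ℂ) (j : ℤ) :
    ∫ x in (-(1/2) : ℝ)..(1/2), ‖TT K c j x‖ ^ 2 = ∑ k ∈ K, ‖c (j, k)‖ ^ 2 := by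
  have h1 : ∀ x : ℝ, ((‖TT K c j x‖ ^ 2 : ℝ) : ℂ) =
      ∑ k ∈ K, ∑ l ∈ K, (c (j, k) * (starRingEnd ℂ) (c (j, l))) * ee (k - l) x := by
    intro x
    have : ((‖TT K c j x‖ ^ 2 : ℝ) : ℂ) = TT K c j x * (starRingEnd ℂ) (TT K c j x) := by
      rw [Complex.mul_conj, Complex.normSq_eq_norm_sq]
    rw [this]
    unfold TT
    rw [map_sum, Finset.sum_mul_sum]
    apply Finset.sum_congr rfl
    intro k _
    apply Finset.sum_congr rfl
    intro l _
    rw [map_mul, ← ee_mul_conj]
    ring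
  have h2 : ((∫ x in (-(1/2) : ℝ)..(1/2), ‖TT K c j x‖ ^ 2 : ℝ) : ℂ) =
      ((∑ k ∈ K, ‖c (j, k)‖ ^ 2 : ℝ) : ℂ) := by
    rw [← intervalIntegral.integral_ofReal]
    simp_rw [h1]
    rw [intervalIntegral.integral_finsetSum]
    · push_cast
      apply Finset.sum_congr rfl
      intro k hk
      rw [intervalIntegral.integral_finsetSum]
      · simp_rw [intervalIntegral.integral_const_mul, integral_ee]
        rw [Finset.sum_eq_single_of_mem k hk]
        · rw [sub_self, if_pos rfl, mul_one, Complex.mul_conj, Complex.normSq_eq_norm_sq]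
          push_cast
          rfl
        · intro l _ hlk
          rw [if_neg (by omega), mul_zero]
      · intro l _
        exact ((continuous_ee _).const_mul _).intervalIntegrable _ _
    · intro k _
      exact (continuous_finsetSum _ fun l _ => (continuous_ee _).const_mul _).intervalIntegrable _ _
  exact_mod_cast h2

lemma integrable_indicator_TT (K : Finset ℤ) (c : ℤ × ℤ → ℂ) (j : ℤ) {S : Set ℝ}
    (hS : MeasurableSet S) (hS2 : S ⊆ II) :
    Integrable (S.indicator fun x => ‖TT K c j x‖ ^ 2) (volume : Measure ℝ) := by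
  rw [integrable_indicator_iff hS]
  have h1 : IntegrableOn (fun x => ‖TT K c j x‖ ^ 2) (Set.Icc (-(1/2) : ℝ) (1/2)) volume :=
    ((continuous_TT K c j).norm.pow 2).continuousOn.integrableOn_compact isCompact_Icc
  exact h1.mono_set (hS2.trans Set.Ioc_subset_Icc_self)

section
variable {D G B : Set ℝ} {N M : ℤ}

lemma IsW.G_sub (h : IsW D G B N M) : G ⊆ II := fun x hx => (h.union x).2 (Or.inl hx)
lemma IsW.B_sub (h : IsW D G B N M) : B ⊆ II := fun x hx => (h.union x).2 (Or.inr hx)

/-- mass of the level-`j` polynomial over a set -/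
noncomputable def qS (K : Finset ℤ) (c : ℤ × ℤ → ℂ) (S : Set ℝ) (j : ℤ) : ℝ :=
  ∫ x, S.indicator (fun x => ‖TT K c j x‖ ^ 2) x

lemma qS_nonneg (K : Finset ℤ) (c : ℤ × ℤ → ℂ) (S : Set ℝ) (j : ℤ) : 0 ≤ qS K c S j :=
  integral_nonneg fun x => Set.indicator_nonneg (fun _ _ => by positivity) _

lemma IsW.qS_add (h : IsW D G B N M) (K : Finset ℤ) (c : ℤ × ℤ → ℂ) (j : ℤ) :
    qS K c G j + qS K c B j = ∑ k ∈ K, ‖c (j, k)‖ ^ 2 := by
  unfold qS
  rw [← integral_add (integrable_indicator_TT K c j h.mG h.G_sub)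
    (integrable_indicator_TT K c j h.mB h.B_sub), ← parseval_TT,
    intervalIntegral.integral_of_le (by norm_num), ← integral_indicator measurableSet_Ioc]
  apply integral_congr_ae
  refine Filter.Eventually.of_forall fun x => ?_
  show G.indicator _ x + B.indicator _ x = II.indicator _ x
  by_cases hG : x ∈ G
  · have hB := h.disj x hG
    have hI := h.G_sub hG
    simp [hG, hB, hI]
  · by_cases hB : x ∈ B
    · have hI := h.B_sub hB
      simp [hG, hB, hI]
    · have hI : x ∉ II := fun hI => by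
        rcases (h.union x).1 hI with h1 | h1
        · exact hG h1
        · exact hB h1
      simp [hG, hB, hI]

/-- indicator of `G` -/
noncomputable def wG (G : Set ℝ) : ℝ → ℂ := G.indicator fun _ => 1
/-- indicator of `B + N` -/
noncomputable def wB (B : Set ℝ) (N : ℤ) : ℝ → ℂ := fun x => B.indicator (fun _ => 1) (x - N)

lemma volume_II : volume II = 1 := by
  unfold II; rw [Real.volume_Ioc]; norm_num

lemma memLp_indicator_one {S : Set ℝ} (hS : MeasurableSet S) (hS2 : S ⊆ II) :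
    MemLp (S.indicator fun _ => (1 : ℂ)) 2 (volume : Measure ℝ) := by
  apply memLp_indicator_const 2 hS 1
  right
  refine ((measure_mono hS2).trans_lt ?_).ne
  rw [volume_II]; exact ENNReal.one_lt_top

lemma IsW.memLp_wG (h : IsW D G B N M) : MemLp (wG G) 2 (volume : Measure ℝ) :=
  memLp_indicator_one h.mG h.G_sub

lemma memLp_comp_sub {g : ℝ → ℂ} (hg : MemLp g 2 (volume : Measure ℝ)) (a : ℝ) :
    MemLp (fun x => g (x - a)) 2 (volume : Measure ℝ) :=
  hg.comp_measurePreserving (measurePreserving_sub_right volume a)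

lemma IsW.memLp_wB (h : IsW D G B N M) : MemLp (wB B N) 2 (volume : Measure ℝ) :=
  memLp_comp_sub (memLp_indicator_one h.mB h.B_sub) N

lemma QQ_wG (K : Finset ℤ) (c : ℤ × ℤ → ℂ) (G : Set ℝ) (j : ℤ) :
    QQ K c (wG G) j = qS K c G j := by
  unfold QQ qS wG
  congr 1
  ext x
  by_cases hx : x ∈ G
  · simp [hx]
  · simp [hx]

lemma indicator_shift (K : Finset ℤ) (c : ℤ × ℤ → ℂ) (S : Set ℝ) (j : ℤ) (n : ℤ) (x : ℝ) :
    S.indicator (fun x => ‖TT K c j x‖ ^ 2) (x - n) = S.indicator (fun _ => ‖TT K c j x‖ ^ 2) (x - n) := by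
  by_cases hx : x - n ∈ S
  · simp only [Set.indicator_of_mem hx]
    have := TT_add_int K c j (x - n) n
    rw [sub_add_cancel] at this
    rw [this]
  · simp only [Set.indicator_of_notMem hx]

lemma QQ_wB (K : Finset ℤ) (c : ℤ × ℤ → ℂ) (B : Set ℝ) (N : ℤ) (j : ℤ) :
    QQ K c (wB B N) j = qS K c B j := by
  unfold QQ qS wB
  rw [← integral_sub_right_eq_self (fun x => B.indicator (fun x => ‖TT K c j x‖ ^ 2) x) (N : ℝ)]
  congr 1
  ext x
  rw [indicator_shift]
  by_cases hx : x - N ∈ B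
  · simp [hx]
  · simp [hx]

end

end Pool.Agent.RieszDense
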