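import Mathlib
import Pool.Agent.Lib_MP_8a7e24_an.Riesz

set_option autoImplicit false
open MeasureTheory FourierTransform

namespace Pool.Agent.RieszDense

variable {D G B : Set ℝ} {N M : ℤ}

/-- Conditions on the main part `F` of the wavelet. -/
structure Nice (G B : Set ℝ) (F : ℝ → ℂ) (C : ℝ) (n0 L : ℕ) : Prop where
  mem : MemLp F 2 (volume : Measure ℝ)
  bdd : ∀ x, ‖F x‖ ≤ C
  supp : ∀ x, F x ≠ 0 → ∃ n ∈ Finset.Icc (-(n0 : ℤ)) n0, x - (n : ℝ) ∈ B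
  few : ∀ ξ : ℝ, ∃ s : Finset ℤ, s.card ≤ L ∧ ∀ j : ℤ, F ((2 : ℝ) ^ (-j) * ξ) ≠ 0 → j ∈ s
  om : ∀ x, F x ≠ 0 → ∃ j : ℤ, (2 : ℝ) ^ j * x ∈ G

lemma Nice.QQ_le (h : IsW D G B N M) {F : ℝ → ℂ} {C : ℝ} {n0 L : ℕ} (hF : Nice G B F C n0 L)
    (K : Finset ℤ) (c : ℤ × ℤ → ℂ) (j : ℤ) :
    QQ K c F j ≤ C ^ 2 * (2 * n0 + 1) * qS K c B j := by
  have hC : 0 ≤ C := (norm_nonneg _).trans (hF.bdd 0)
  have h1 : ∀ x, ‖TT K c j x * F x‖ ^ 2 ≤ C ^ 2 * ∑ n ∈ Finset.Icc (-(n0 : ℤ)) n0,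
      B.indicator (fun x => ‖TT K c j x‖ ^ 2) (x - (n : ℝ)) := by
    intro x
    have hnn : ∀ n ∈ Finset.Icc (-(n0 : ℤ)) n0,
        0 ≤ B.indicator (fun x => ‖TT K c j x‖ ^ 2) (x - (n : ℝ)) := fun n _ =>
      Set.indicator_nonneg (fun _ _ => by positivity) _
    by_cases hx : F x = 0
    · rw [hx, mul_zero, norm_zero, zero_pow two_ne_zero]
      exact mul_nonneg (sq_nonneg C) (Finset.sum_nonneg hnn)
    · obtain ⟨n, hn, hnB⟩ := hF.supp x hx
      calc ‖TT K c j x * F x‖ ^ 2 = ‖F x‖ ^ 2 * ‖TT K c j x‖ ^ 2 := by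
            rw [norm_mul, mul_pow, mul_comm]
        _ ≤ C ^ 2 * ‖TT K c j x‖ ^ 2 := by
            gcongr
            exact hF.bdd x
        _ = C ^ 2 * B.indicator (fun x => ‖TT K c j x‖ ^ 2) (x - (n : ℝ)) := by
            rw [indicator_shift, Set.indicator_of_mem hnB]
        _ ≤ _ := by
            gcongr
            exact Finset.single_le_sum hnn hn
  have hint : ∀ n : ℤ, Integrable (fun x => B.indicator (fun x => ‖TT K c j x‖ ^ 2) (x - (n : ℝ)))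
      (volume : Measure ℝ) := fun n =>
    (integrable_indicator_TT K c j h.mB h.B_sub).comp_sub_right (n : ℝ)
  calc QQ K c F j ≤ ∫ x, C ^ 2 * ∑ n ∈ Finset.Icc (-(n0 : ℤ)) n0,
      B.indicator (fun x => ‖TT K c j x‖ ^ 2) (x - (n : ℝ)) := by
        apply integral_mono_of_nonneg
        · exact Filter.Eventually.of_forall fun x => by positivity
        · exact (integrable_finsetSum _ fun n _ => hint n).const_mul _
        · exact Filter.Eventually.of_forall h1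
    _ = C ^ 2 * ∑ n ∈ Finset.Icc (-(n0 : ℤ)) n0, qS K c B j := by
        rw [integral_const_mul, integral_finsetSum _ (fun n _ => hint n)]
        congr 1
        apply Finset.sum_congr rfl
        intro n _
        rw [integral_sub_right_eq_self (fun x => B.indicator (fun x => ‖TT K c j x‖ ^ 2) x)]
        rfl
    _ = C ^ 2 * (2 * n0 + 1) * qS K c B j := by
        rw [Finset.sum_const, Int.card_Icc, nsmul_eq_mul]
        have : (((n0 : ℤ) + 1 - -(n0 : ℤ)).toNat : ℝ) = 2 * n0 + 1 := by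
          have h2 : ((n0 : ℤ) + 1 - -(n0 : ℤ)).toNat = 2 * n0 + 1 := by omega
          rw [h2]; push_cast; ring
        rw [this]
        ring

lemma SS_add (J K : Finset ℤ) (c : ℤ × ℤ → ℂ) (H₁ H₂ : ℝ → ℂ) (ξ : ℝ) :
    SS J K c (fun x => H₁ x + H₂ x) ξ = SS J K c H₁ ξ + SS J K c H₂ ξ := by
  unfold SS V
  rw [← Finset.sum_add_distrib]
  apply Finset.sum_congr rfl
  intro j _
  rw [← Finset.sum_add_distrib]
  apply Finset.sum_congr rfl
  intro k _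
  ring

lemma SS_smul (J K : Finset ℤ) (c : ℤ × ℤ → ℂ) (t : ℂ) (H : ℝ → ℂ) (ξ : ℝ) :
    SS J K c (fun x => t * H x) ξ = t * SS J K c H ξ := by
  unfold SS V
  rw [Finset.mul_sum]
  apply Finset.sum_congr rfl
  intro j _
  rw [Finset.mul_sum]
  apply Finset.sum_congr rfl
  intro k _
  ring

lemma SS_zero (J K : Finset ℤ) (c : ℤ × ℤ → ℂ) (H : ℝ → ℂ) (ξ : ℝ)
    (h0 : ∀ j : ℤ, H ((2 : ℝ) ^ (-j) * ξ) = 0) : SS J K c H ξ = 0 := by
  rw [SS_eq]
  apply Finset.sum_eq_zero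
  intro j _
  unfold term
  rw [h0, mul_zero, mul_zero]

lemma memLp_SS (J K : Finset ℤ) (c : ℤ × ℤ → ℂ) {H : ℝ → ℂ}
    (hH : MemLp H 2 (volume : Measure ℝ)) : MemLp (SS J K c H) 2 (volume : Measure ℝ) := by
  unfold SS
  exact memLp_finsetSum _ fun j _ => memLp_finsetSum _ fun k _ =>
    (memLp_V (j, k) hH).const_mul _

/-- The candidate Riesz wavelet on the Fourier side. -/
noncomputable def Psi (G B : Set ℝ) (N : ℤ) (F : ℝ → ℂ) (t : ℝ) (x : ℝ) : ℂ :=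
  F x + (t : ℂ) * (wG G x + wB B N x)

lemma IsW.memLp_Psi (h : IsW D G B N M) {F : ℝ → ℂ} (hF : MemLp F 2 (volume : Measure ℝ)) (t : ℝ) :
    MemLp (Psi G B N F t) 2 (volume : Measure ℝ) :=
  hF.add ((h.memLp_wG.add h.memLp_wB).const_mul _)

lemma wG_ne {G : Set ℝ} {x : ℝ} (hx : wG G x ≠ 0) : x ∈ G := by
  unfold wG at hx
  exact Set.mem_of_indicator_ne_zero hx

lemma wB_ne {B : Set ℝ} {N : ℤ} {x : ℝ} (hx : wB B N x ≠ 0) : x - N ∈ B := by
  unfold wB at hx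
  exact Set.mem_of_indicator_ne_zero hx

/-- Riesz bounds for the candidate, on the Fourier side and over product index sets. -/
theorem riesz_prod (h : IsW D G B N M) {F : ℝ → ℂ} {C : ℝ} {n0 L : ℕ} (hF : Nice G B F C n0 L)
    {t : ℝ} (ht : 0 < t) :
    ∃ A₁ B₁ : ℝ, 0 < A₁ ∧ 0 < B₁ ∧ ∀ (J K : Finset ℤ) (c : ℤ × ℤ → ℂ),
      A₁ * ∑ j ∈ J, ∑ k ∈ K, ‖c (j, k)‖ ^ 2 ≤ ∫ ξ, ‖SS J K c (Psi G B N F t) ξ‖ ^ 2 ∧
      ∫ ξ, ‖SS J K c (Psi G B N F t) ξ‖ ^ 2 ≤ B₁ * ∑ j ∈ J, ∑ k ∈ K, ‖c (j, k)‖ ^ 2 := by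
  set C₁ : ℝ := L * (C ^ 2 * (2 * n0 + 1)) with hC₁
  have hC₁0 : 0 ≤ C₁ := by positivity
  -- pieces
  have key : ∀ (J K : Finset ℤ) (c : ℤ × ℤ → ℂ), ∃ u v f S : ℝ, 0 ≤ u ∧ 0 ≤ v ∧ 0 ≤ f ∧
      u + v = ∑ j ∈ J, ∑ k ∈ K, ‖c (j, k)‖ ^ 2 ∧ f ≤ C₁ * u ∧
      S = ∫ ξ, ‖SS J K c (Psi G B N F t) ξ‖ ^ 2 ∧
      t ^ 2 * u ≤ S ∧ t ^ 2 * v ≤ 2 * S + 2 * f ∧ S ≤ t ^ 2 * u + (2 * t ^ 2 * v + 2 * f) := by
    intro J K c
    have hSG := int_SS_one J K c h.memLp_wG (fun ξ i j hi hj => by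
      have := h.one_G (wG_ne hi) (wG_ne hj); omega)
    have hSB := int_SS_one J K c h.memLp_wB (fun ξ i j hi hj => by
      have := h.one_B (wB_ne hi) (wB_ne hj); omega)
    have hSF := int_SS_le J K c hF.mem L hF.few
    have iG := (memLp_two_iff' (memLp_SS J K c h.memLp_wG).1).1 (memLp_SS J K c h.memLp_wG)
    have iB := (memLp_two_iff' (memLp_SS J K c h.memLp_wB).1).1 (memLp_SS J K c h.memLp_wB)
    have iF := (memLp_two_iff' (memLp_SS J K c hF.mem).1).1 (memLp_SS J K c hF.mem)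
    have hP := memLp_SS J K c (h.memLp_Psi hF.mem t)
    have iP := (memLp_two_iff' hP.1).1 hP
    have hdec : ∀ ξ, SS J K c (Psi G B N F t) ξ =
        SS J K c F ξ + (t : ℂ) * (SS J K c (wG G) ξ + SS J K c (wB B N) ξ) := by
      intro ξ
      have e1 : SS J K c (Psi G B N F t) ξ = SS J K c F ξ +
          SS J K c (fun x => (t : ℂ) * (wG G x + wB B N x)) ξ := by
        rw [← SS_add]; rfl
      rw [e1, SS_smul, SS_add]
    -- pointwise dichotomy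
    have hdich : ∀ ξ : ℝ, SS J K c (wB B N) ξ = 0 ∨ (SS J K c (wG G) ξ = 0 ∧ SS J K c F ξ = 0) := by
      intro ξ
      by_cases hB : ∃ j : ℤ, (2 : ℝ) ^ (-j) * ξ - N ∈ B
      · right
        obtain ⟨j, hj⟩ := hB
        constructor
        · apply SS_zero
          intro i
          by_contra hne
          exact h.not_both (wG_ne hne) hj
        · apply SS_zero
          intro i
          by_contra hne
          obtain ⟨l, hl⟩ := hF.om _ hne
          rw [← mul_assoc, ← zpow_add₀ (by norm_num : (2 : ℝ) ≠ 0)] at hl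
          exact h.not_both hl hj
      · left
        apply SS_zero
        intro i
        by_contra hne
        exact hB ⟨i, wB_ne hne⟩
    refine ⟨∑ j ∈ J, qS K c B j, ∑ j ∈ J, qS K c G j, ∫ ξ, ‖SS J K c F ξ‖ ^ 2,
      ∫ ξ, ‖SS J K c (Psi G B N F t) ξ‖ ^ 2, ?_, ?_, ?_, ?_, ?_, rfl, ?_, ?_, ?_⟩
    · exact Finset.sum_nonneg fun j _ => qS_nonneg K c B j
    · exact Finset.sum_nonneg fun j _ => qS_nonneg K c G j
    · positivity
    · rw [← Finset.sum_add_distrib]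
      apply Finset.sum_congr rfl
      intro j _
      rw [add_comm, h.qS_add]
    · refine hSF.trans ?_
      rw [hC₁, mul_assoc]
      gcongr
      rw [Finset.mul_sum]
      exact Finset.sum_le_sum fun j _ => hF.QQ_le h K c j
    · have e1 : ∑ j ∈ J, qS K c B j = ∫ ξ, ‖SS J K c (wB B N) ξ‖ ^ 2 := by
        rw [hSB]; exact Finset.sum_congr rfl fun j _ => (QQ_wB K c B N j).symm
      rw [e1, ← integral_const_mul]
      apply integral_mono (iB.const_mul _) iP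
      intro ξ
      show t ^ 2 * ‖SS J K c (wB B N) ξ‖ ^ 2 ≤ ‖SS J K c (Psi G B N F t) ξ‖ ^ 2
      rw [hdec]
      rcases hdich ξ with h0 | ⟨h0, h1⟩
      · rw [h0, norm_zero, zero_pow two_ne_zero, mul_zero]; positivity
      · rw [h0, h1]
        simp only [zero_add, norm_mul, mul_pow, Complex.norm_real, Real.norm_eq_abs, sq_abs]
        exact le_refl _
    · have e1 : ∑ j ∈ J, qS K c G j = ∫ ξ, ‖SS J K c (wG G) ξ‖ ^ 2 := by
        rw [hSG]; exact Finset.sum_congr rfl fun j _ => (QQ_wG K c G j).symm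
      rw [e1, ← integral_const_mul, ← integral_const_mul, ← integral_const_mul,
        ← integral_add (iP.const_mul _) (iF.const_mul _)]
      apply integral_mono (iG.const_mul _) ((iP.const_mul _).add (iF.const_mul _))
      intro ξ
      show t ^ 2 * ‖SS J K c (wG G) ξ‖ ^ 2 ≤
        2 * ‖SS J K c (Psi G B N F t) ξ‖ ^ 2 + 2 * ‖SS J K c F ξ‖ ^ 2
      rw [hdec]
      rcases hdich ξ with h0 | ⟨h0, h1⟩
      · rw [h0, add_zero]
        have e2 : t ^ 2 * ‖SS J K c (wG G) ξ‖ ^ 2 = ‖(t : ℂ) * SS J K c (wG G) ξ‖ ^ 2 := by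
          simp only [norm_mul, mul_pow, Complex.norm_real, Real.norm_eq_abs, sq_abs]
        rw [e2]
        set a := (t : ℂ) * SS J K c (wG G) ξ
        set b := SS J K c F ξ
        have e3 : ‖a‖ ≤ ‖b + a‖ + ‖b‖ := by
          calc ‖a‖ = ‖(b + a) - b‖ := by ring_nf
            _ ≤ _ := norm_sub_le _ _
        nlinarith [norm_nonneg a, norm_nonneg b, norm_nonneg (b + a), sq_nonneg (‖b + a‖ - ‖b‖)]
      · rw [h0, norm_zero, zero_pow two_ne_zero, mul_zero]; positivity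
    · have e1 : ∑ j ∈ J, qS K c G j = ∫ ξ, ‖SS J K c (wG G) ξ‖ ^ 2 := by
        rw [hSG]; exact Finset.sum_congr rfl fun j _ => (QQ_wG K c G j).symm
      have e1' : ∑ j ∈ J, qS K c B j = ∫ ξ, ‖SS J K c (wB B N) ξ‖ ^ 2 := by
        rw [hSB]; exact Finset.sum_congr rfl fun j _ => (QQ_wB K c B N j).symm
      have e4 : t ^ 2 * (∫ ξ, ‖SS J K c (wB B N) ξ‖ ^ 2) +
          (2 * t ^ 2 * (∫ ξ, ‖SS J K c (wG G) ξ‖ ^ 2) + 2 * ∫ ξ, ‖SS J K c F ξ‖ ^ 2) =
          ∫ ξ, (t ^ 2 * ‖SS J K c (wB B N) ξ‖ ^ 2 +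
            (2 * t ^ 2 * ‖SS J K c (wG G) ξ‖ ^ 2 + 2 * ‖SS J K c F ξ‖ ^ 2)) := by
        have iGF : Integrable (fun ξ => 2 * t ^ 2 * ‖SS J K c (wG G) ξ‖ ^ 2 +
            2 * ‖SS J K c F ξ‖ ^ 2) (volume : Measure ℝ) := (iG.const_mul _).add (iF.const_mul _)
        rw [integral_add (iB.const_mul _) iGF,
          integral_add (iG.const_mul _) (iF.const_mul _), integral_const_mul, integral_const_mul,
          integral_const_mul]
      rw [e1, e1', e4]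
      apply integral_mono iP ((iB.const_mul _).add ((iG.const_mul _).add (iF.const_mul _)))
      intro ξ
      show ‖SS J K c (Psi G B N F t) ξ‖ ^ 2 ≤ t ^ 2 * ‖SS J K c (wB B N) ξ‖ ^ 2 +
        (2 * t ^ 2 * ‖SS J K c (wG G) ξ‖ ^ 2 + 2 * ‖SS J K c F ξ‖ ^ 2)
      rw [hdec]
      rcases hdich ξ with h0 | ⟨h0, h1⟩
      · rw [h0, add_zero]
        have e2 : t ^ 2 * ‖SS J K c (wG G) ξ‖ ^ 2 = ‖(t : ℂ) * SS J K c (wG G) ξ‖ ^ 2 := by
          simp only [norm_mul, mul_pow, Complex.norm_real, Real.norm_eq_abs, sq_abs]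
        rw [mul_assoc 2, e2]
        set a := (t : ℂ) * SS J K c (wG G) ξ
        set b := SS J K c F ξ
        have e3 : ‖b + a‖ ≤ ‖b‖ + ‖a‖ := norm_add_le _ _
        simp only [norm_zero]
        nlinarith [norm_nonneg a, norm_nonneg b, norm_nonneg (b + a), sq_nonneg (‖a‖ - ‖b‖)]
      · rw [h0, h1]
        simp only [zero_add, norm_mul, mul_pow, Complex.norm_real, Real.norm_eq_abs, sq_abs, norm_zero]
        nlinarith [sq_nonneg t]
  refine ⟨(1 / t ^ 2 + 2 / t ^ 2 + 2 * C₁ / t ^ 4)⁻¹, 2 * t ^ 2 + 2 * C₁, by positivity,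
    by positivity, ?_⟩
  intro J K c
  obtain ⟨u, v, f, S, hu, hv, hf, huv, hfu, hS, h1, h2, h3⟩ := key J K c
  rw [← hS, ← huv]
  have hS0 : 0 ≤ S := le_trans (by positivity) h1
  constructor
  · rw [inv_mul_le_iff₀ (by positivity)]
    have h4 : u ≤ 1 / t ^ 2 * S := by
      rw [one_div, ← div_eq_inv_mul, le_div_iff₀ (by positivity)]
      linarith
    have h5 : v ≤ 2 / t ^ 2 * S + 2 / t ^ 2 * f := by
      have : v ≤ (2 * S + 2 * f) / t ^ 2 := by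
        rw [le_div_iff₀ (by positivity)]; linarith
      calc v ≤ (2 * S + 2 * f) / t ^ 2 := this
        _ = _ := by ring
    have h6 : 2 / t ^ 2 * f ≤ 2 / t ^ 2 * (C₁ * (1 / t ^ 2 * S)) := by
      gcongr
      exact hfu.trans (by gcongr)
    calc u + v ≤ 1 / t ^ 2 * S + (2 / t ^ 2 * S + 2 / t ^ 2 * (C₁ * (1 / t ^ 2 * S))) := by linarith
      _ = (1 / t ^ 2 + 2 / t ^ 2 + 2 * C₁ / t ^ 4) * S := by
          field_simp
          ring
  · nlinarith [mul_nonneg hC₁0 hv, mul_nonneg (sq_nonneg t) hu, mul_nonneg (sq_nonneg t) hv]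

end Pool.Agent.RieszDense
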