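import Mathlib
import Pool.Agent.Lib_MP_8a7e24_an.Bounds

set_option autoImplicit false
open MeasureTheory FourierTransform

namespace Pool.Agent.RieszDense

lemma measurableSet_II : MeasurableSet II := measurableSet_Ioc

/-- An `L²` function on the unit interval all of whose Fourier coefficients vanish is zero. -/
lemma ae_zero_of_coeff {P : ℝ → ℂ} (hP : MemLp P 2 (volume.restrict II))
    (h0 : ∀ k : ℤ, ∫ x in II, (starRingEnd ℂ) (ee k x) * P x = 0) :
    ∀ᵐ x ∂(volume.restrict II), P x = 0 := by
  have hab : (-(1/2) : ℝ) < 1/2 := by norm_num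
  have hs := hasSum_sq_fourierCoeffOn hab hP
  have hz : ∀ i : ℤ, fourierCoeffOn hab P i = 0 := by
    intro i
    rw [fourierCoeffOn_eq_integral]
    have h1 : ∫ x in (-(1/2) : ℝ)..(1/2), (fourier (-i)) (x : AddCircle ((1/2 : ℝ) - (-(1/2)))) • P x = 0 := by
      rw [intervalIntegral.integral_of_le hab.le, ← h0 (-i)]
      apply setIntegral_congr_fun measurableSet_Ioc
      intro x _
      simp only [smul_eq_mul]
      congr 1
      rw [fourier_coe_apply]
      unfold ee
      rw [← Complex.exp_conj]
      congr 1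
      simp only [map_mul, map_neg, Complex.conj_ofReal, Complex.conj_I]
      push_cast
      norm_num
      ring
    rw [h1, smul_zero]
  simp only [hz, norm_zero, ne_eq, OfNat.ofNat_ne_zero, not_false_eq_true, zero_pow] at hs
  have h2 := hs.unique hasSum_zero
  have h3 : ∫ x in (-(1/2) : ℝ)..(1/2), ‖P x‖ ^ 2 = 0 := by
    rw [smul_eq_mul] at h2
    rcases mul_eq_zero.1 h2 with h | h
    · norm_num at h
    · exact h
  rw [intervalIntegral.integral_of_le hab.le] at h3
  have hint : Integrable (fun x => ‖P x‖ ^ 2) (volume.restrict II) :=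
    (memLp_two_iff_integrable_sq_norm hP.1).1 hP
  have h4 := (integral_eq_zero_iff_of_nonneg (fun x => by positivity) hint).1 h3
  filter_upwards [h4] with x hx
  have : ‖P x‖ ^ 2 = 0 := hx
  exact norm_eq_zero.1 (pow_eq_zero_iff two_ne_zero |>.1 this)

lemma exists_int_II (x : ℝ) : ∃ n : ℤ, x - n ∈ II := by
  refine ⟨⌈x - 1/2⌉, ?_, ?_⟩
  · have := Int.ceil_lt_add_one (x - 1/2)
    linarith
  · have := Int.le_ceil (x - 1/2)
    linarith

lemma int_II_unique {x : ℝ} {m n : ℤ} (hm : x - m ∈ II) (hn : x - n ∈ II) : m = n := by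
  obtain ⟨h1, h2⟩ := hm
  obtain ⟨h3, h4⟩ := hn
  have a1 : (m : ℝ) < n + 1 := by linarith
  have a2 : (n : ℝ) < m + 1 := by linarith
  have b1 : m < n + 1 := by exact_mod_cast a1
  have b2 : n < m + 1 := by exact_mod_cast a2
  omega

lemma conj_ee_sub_int (k : ℤ) (x : ℝ) (n : ℤ) : ee k (x - n) = ee k x := by
  have := ee_add_int k (x - n) n
  rw [sub_add_cancel] at this
  exact this.symm

/-- Periodisation: an `L²` function with bounded support, orthogonal to all the characters,
has vanishing periodisation. -/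
lemma fold_zero {g : ℝ → ℂ} (hg : MemLp g 2 (volume : Measure ℝ)) (n1 : ℕ)
    (hs : ∀ x, g x ≠ 0 → ∃ n ∈ Finset.Icc (-(n1 : ℤ)) n1, x - (n : ℝ) ∈ II)
    (h0 : ∀ k : ℤ, ∫ x, (starRingEnd ℂ) (ee k x) * g x = 0) :
    ∀ᵐ x ∂(volume : Measure ℝ), x ∈ II → ∑ n ∈ Finset.Icc (-(n1 : ℤ)) n1, g (x + (n : ℝ)) = 0 := by
  have hgn : ∀ n : ℤ, MemLp (fun x => g (x + (n : ℝ))) 2 (volume.restrict II) := fun n =>
    (hg.comp_measurePreserving (measurePreserving_add_right volume (n : ℝ))).restrict II
  have hfin : IsFiniteMeasure (volume.restrict II) :=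
    ⟨by rw [Measure.restrict_apply_univ, volume_II]; exact ENNReal.one_lt_top⟩
  have hP : MemLp (fun x => ∑ n ∈ Finset.Icc (-(n1 : ℤ)) n1, g (x + (n : ℝ))) 2
      (volume.restrict II) := memLp_finsetSum _ fun n _ => hgn n
  have hcont : ∀ k : ℤ, Continuous fun x => (starRingEnd ℂ) (ee k x) := fun k =>
    Complex.continuous_conj.comp (continuous_ee k)
  have hint : ∀ (k n : ℤ), Integrable (fun x => (starRingEnd ℂ) (ee k x) * g (x + (n : ℝ)))
      (volume.restrict II) := by
    intro k n
    have h1 : Integrable (fun x => g (x + (n : ℝ))) (volume.restrict II) :=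
      (hgn n).integrable (by norm_num)
    refine h1.bdd_mul (c := 1) (hcont k).aestronglyMeasurable ?_
    exact Filter.Eventually.of_forall fun x => by
      rw [RCLike.norm_conj, norm_ee]
  have hz : ∀ k : ℤ, ∫ x in II, (starRingEnd ℂ) (ee k x) *
      ∑ n ∈ Finset.Icc (-(n1 : ℤ)) n1, g (x + (n : ℝ)) = 0 := by
    intro k
    rw [← h0 k]
    have e1 : ∀ x : ℝ, (starRingEnd ℂ) (ee k x) * g x =
        ∑ n ∈ Finset.Icc (-(n1 : ℤ)) n1,
          II.indicator (fun y => (starRingEnd ℂ) (ee k y) * g (y + (n : ℝ))) (x - (n : ℝ)) := by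
      intro x
      obtain ⟨m, hm⟩ := exists_int_II x
      have e2 : ∀ n ∈ Finset.Icc (-(n1 : ℤ)) n1, n ≠ m →
          II.indicator (fun y => (starRingEnd ℂ) (ee k y) * g (y + (n : ℝ))) (x - (n : ℝ)) = 0 := by
        intro n _ hn
        apply Set.indicator_of_notMem
        intro hn'
        exact hn (int_II_unique hn' hm)
      by_cases hmem : m ∈ Finset.Icc (-(n1 : ℤ)) n1
      · rw [Finset.sum_eq_single_of_mem m hmem e2, Set.indicator_of_mem hm]
        rw [conj_ee_sub_int, sub_add_cancel]
      · have hg0 : g x = 0 := by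
          by_contra hne
          obtain ⟨n, hn, hn'⟩ := hs x hne
          rw [int_II_unique hn' hm] at hn
          exact hmem hn
        rw [hg0, mul_zero]
        symm
        apply Finset.sum_eq_zero
        intro n hn
        exact e2 n hn (fun h => hmem (h ▸ hn))
    simp_rw [e1]
    have hi2 : ∀ n : ℤ, Integrable (II.indicator fun y => (starRingEnd ℂ) (ee k y) *
        g (y + (n : ℝ))) (volume : Measure ℝ) := fun n =>
      (integrable_indicator_iff measurableSet_Ioc).2 (hint k n)
    rw [integral_finsetSum _ (fun n _ => (hi2 n).comp_sub_right (n : ℝ))]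
    simp_rw [Finset.mul_sum]
    rw [integral_finsetSum _ (fun n _ => hint k n)]
    apply Finset.sum_congr rfl
    intro n _
    rw [integral_sub_right_eq_self (fun x => II.indicator
      (fun y => (starRingEnd ℂ) (ee k y) * g (y + (n : ℝ))) x), integral_indicator measurableSet_II]
  have := ae_zero_of_coeff hP hz
  rwa [ae_restrict_iff' measurableSet_II] at this


lemma ae_scale {Q : ℝ → Prop} (hQ : ∀ᵐ x ∂(volume : Measure ℝ), Q x) (a b : ℝ) (ha : a ≠ 0) :
    ∀ᵐ x ∂(volume : Measure ℝ), Q (a * x - b) :=
  (qmp_affine a b ha).ae hQ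

variable {D G B : Set ℝ} {N M : ℤ}

/-- Completeness on the Fourier side. -/
theorem complete_side (h : IsW D G B N M) {F : ℝ → ℂ} {C : ℝ} {n0 L : ℕ} (hF : Nice G B F C n0 L)
    {t : ℝ} (ht : 0 < t) {y : ℝ → ℂ} (hy : MemLp y 2 (volume : Measure ℝ))
    (horth : ∀ p : ℤ × ℤ, ∫ ξ, (starRingEnd ℂ) (V p (Psi G B N F t) ξ) * y ξ = 0) :
    ∀ᵐ ξ ∂(volume : Measure ℝ), y ξ = 0 := by
  set Ψ := Psi G B N F t with hΨ
  have hΨm : MemLp Ψ 2 (volume : Measure ℝ) := h.memLp_Psi hF.mem t
  set n1 : ℕ := max n0 N.natAbs with hn1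
  have hn1a : n0 ≤ n1 := le_max_left _ _
  have hn1b : N.natAbs ≤ n1 := le_max_right _ _
  -- bound on Ψ
  have hC : 0 ≤ C := (norm_nonneg _).trans (hF.bdd 0)
  have hwG : ∀ x, ‖wG G x‖ ≤ 1 := by
    intro x; unfold wG
    by_cases hx : x ∈ G
    · simp [hx]
    · simp [hx]
  have hwB : ∀ x, ‖wB B N x‖ ≤ 1 := by
    intro x; unfold wB
    by_cases hx : x - N ∈ B
    · simp [hx]
    · simp [hx]
  have hΨb : ∀ x, ‖Ψ x‖ ≤ C + t * 2 := by
    intro x
    rw [hΨ]; unfold Psi
    refine (norm_add_le _ _).trans (add_le_add (hF.bdd x) ?_)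
    rw [norm_mul, Complex.norm_real, Real.norm_eq_abs, abs_of_pos ht]
    gcongr
    refine (norm_add_le _ _).trans ?_
    linarith [hwG x, hwB x]
  -- folding at level j
  have fold : ∀ j : ℤ, ∀ᵐ x ∂(volume : Measure ℝ), x ∈ II →
      ∑ n ∈ Finset.Icc (-(n1 : ℤ)) n1,
        (starRingEnd ℂ) (Ψ (x + (n : ℝ))) * y ((2 : ℝ) ^ j * (x + (n : ℝ))) = 0 := by
    intro j
    have hys : MemLp (fun x => y ((2 : ℝ) ^ j * x)) 2 (volume : Measure ℝ) := by
      have h1 : AEStronglyMeasurable (fun x => y ((2 : ℝ) ^ j * x)) (volume : Measure ℝ) := by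
        have := aesm_comp_affine hy.1 ((2 : ℝ) ^ j) 0 (two_zpow_ne j)
        simpa using this
      rw [memLp_two_iff' h1]
      exact ((memLp_two_iff' hy.1).1 hy).comp_mul_left' (two_zpow_ne j)
    have hg : MemLp (fun x => (starRingEnd ℂ) (Ψ x) * y ((2 : ℝ) ^ j * x)) 2
        (volume : Measure ℝ) := by
      refine (hys.const_smul (C + t * 2)).mono ?_ ?_
      · exact (Complex.continuous_conj.comp_aestronglyMeasurable hΨm.1).mul hys.1
      · refine Filter.Eventually.of_forall fun x => ?_
        simp only [Pi.smul_apply]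
        rw [norm_mul, norm_smul, RCLike.norm_conj]
        refine mul_le_mul_of_nonneg_right ?_ (norm_nonneg _)
        exact (hΨb x).trans (le_abs_self _)
    refine fold_zero (g := fun x => (starRingEnd ℂ) (Ψ x) * y ((2 : ℝ) ^ j * x)) hg n1 ?_ ?_
    · intro x hx
      have hx' : Ψ x ≠ 0 := by
        intro h0
        apply hx
        simp [h0]
      by_cases hFx : F x = 0
      · rw [hΨ] at hx'; unfold Psi at hx'
        rw [hFx, zero_add] at hx'
        by_cases hG : wG G x = 0
        · rw [hG, zero_add] at hx'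
          have hB : wB B N x ≠ 0 := fun h0 => hx' (by rw [h0, mul_zero])
          refine ⟨N, ?_, h.B_sub (wB_ne hB)⟩
          rw [Finset.mem_Icc]
          omega
        · refine ⟨0, ?_, ?_⟩
          · rw [Finset.mem_Icc]; omega
          · simpa using h.G_sub (wG_ne hG)
      · obtain ⟨n, hn, hnB⟩ := hF.supp x hFx
        refine ⟨n, ?_, h.B_sub hnB⟩
        rw [Finset.mem_Icc] at hn ⊢
        omega
    · intro k
      set a : ℂ := (((2 : ℝ) ^ (-(j : ℝ) / 2) : ℝ) : ℂ) with ha
      have ha0 : a ≠ 0 := by
        rw [ha]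
        exact_mod_cast (Real.rpow_pos_of_pos (by norm_num : (0 : ℝ) < 2) _).ne'
      have e1 : ∀ ξ : ℝ, (starRingEnd ℂ) (V (j, k) Ψ ξ) * y ξ =
          (fun η : ℝ => (starRingEnd ℂ) a * ((starRingEnd ℂ) (ee k η) *
            ((starRingEnd ℂ) (Ψ η) * y ((2 : ℝ) ^ j * η)))) ((2 : ℝ) ^ (-j) * ξ) := by
        intro ξ
        simp only []
        rw [← mul_assoc ((2 : ℝ) ^ j), ← zpow_add₀ (by norm_num : (2 : ℝ) ≠ 0), add_neg_cancel,
          zpow_zero, one_mul]
        unfold V
        simp only [map_mul]
        ring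
      have e2 := horth (j, k)
      simp_rw [e1] at e2
      have e3 := Measure.integral_comp_mul_left (fun η : ℝ => (starRingEnd ℂ) a *
        ((starRingEnd ℂ) (ee k η) * ((starRingEnd ℂ) (Ψ η) * y ((2 : ℝ) ^ j * η)))) ((2 : ℝ) ^ (-j))
      rw [e3, integral_const_mul] at e2
      rcases smul_eq_zero.1 e2 with e4 | e4
      · exfalso
        have : (0 : ℝ) < |((2 : ℝ) ^ (-j))⁻¹| := by positivity
        exact this.ne' e4
      · rcases mul_eq_zero.1 e4 with e5 | e5
        · exact absurd ((map_eq_zero (starRingEnd ℂ)).1 e5) ha0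
        · exact e5
  -- vanishing on dilates of G
  have hzG : ∀ᵐ ξ ∂(volume : Measure ℝ), (∃ j : ℤ, (2 : ℝ) ^ j * ξ ∈ G) → y ξ = 0 := by
    have h1 : ∀ j : ℤ, ∀ᵐ ξ ∂(volume : Measure ℝ), (2 : ℝ) ^ j * ξ ∈ G → y ξ = 0 := by
      intro j
      have h2 : ∀ᵐ x ∂(volume : Measure ℝ), x ∈ G → y ((2 : ℝ) ^ (-j) * x) = 0 := by
        filter_upwards [fold (-j)] with x hx hxG
        have hxI := h.G_sub hxG
        have h3 := hx hxI
        rw [Finset.sum_eq_single_of_mem 0 (by rw [Finset.mem_Icc]; omega)] at h3
        · simp only [Int.cast_zero, add_zero] at h3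
          have h4 : Ψ x = t := by
            rw [hΨ]; unfold Psi
            have hF0 : F x = 0 := by
              by_contra hne
              obtain ⟨n, _, hnB⟩ := hF.supp x hne
              have : n = 0 := int_II_unique (h.B_sub hnB) (by simpa using hxI)
              rw [this] at hnB
              exact h.disj x hxG (by simpa using hnB)
            have hB0 : wB B N x = 0 := by
              by_contra hne
              exact h.not_GB hxG (wB_ne hne)
            have hG1 : wG G x = 1 := by unfold wG; simp [hxG]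
            rw [hF0, hB0, hG1]; ring
          rw [h4] at h3
          rcases mul_eq_zero.1 h3 with h5 | h5
          · exfalso
            rw [Complex.conj_ofReal] at h5
            exact ht.ne' (by exact_mod_cast h5)
          · exact h5
        · intro n _ hn0
          have h4 : Ψ (x + n) = 0 := by
            rw [hΨ]; unfold Psi
            have hF0 : F (x + n) = 0 := by
              by_contra hne
              obtain ⟨m, _, hmB⟩ := hF.supp _ hne
              have hm : m = n := int_II_unique (x := x + n) (h.B_sub hmB) (by simpa using hxI)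
              rw [hm, add_sub_cancel_right] at hmB
              exact h.disj x hxG hmB
            have hG0 : wG G (x + n) = 0 := by
              by_contra hne
              have := wG_ne hne
              have hm : (0 : ℤ) = n := int_II_unique (x := x + n) (by simpa using h.G_sub this)
                (by simpa using hxI)
              exact hn0 hm.symm
            have hB0 : wB B N (x + n) = 0 := by
              by_contra hne
              have := wB_ne hne
              have hm : N = n := int_II_unique (x := x + n) (h.B_sub this) (by simpa using hxI)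
              rw [hm, add_sub_cancel_right] at this
              exact h.disj x hxG this
            rw [hF0, hG0, hB0]; ring
          rw [h4, map_zero, zero_mul]
      have h5 := ae_scale h2 ((2 : ℝ) ^ j) 0 (two_zpow_ne j)
      filter_upwards [h5] with ξ hξ hξG
      simp only [sub_zero] at hξ
      have := hξ hξG
      rwa [← mul_assoc, ← zpow_add₀ (by norm_num : (2 : ℝ) ≠ 0), neg_add_cancel, zpow_zero,
        one_mul] at this
    filter_upwards [ae_all_iff.2 h1] with ξ hξ hex
    obtain ⟨j, hj⟩ := hex
    exact hξ j hj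
  -- vanishing on dilates of B + N
  have hzB : ∀ᵐ ξ ∂(volume : Measure ℝ), (∃ j : ℤ, (2 : ℝ) ^ j * ξ - N ∈ B) → y ξ = 0 := by
    have h1 : ∀ j : ℤ, ∀ᵐ ξ ∂(volume : Measure ℝ), (2 : ℝ) ^ j * ξ - N ∈ B → y ξ = 0 := by
      intro j
      have h2 : ∀ᵐ x ∂(volume : Measure ℝ), x ∈ B → y ((2 : ℝ) ^ (-j) * (x + N)) = 0 := by
        have h2a : ∀ n : ℤ, ∀ᵐ x ∂(volume : Measure ℝ),
            (∃ i : ℤ, (2 : ℝ) ^ i * ((2 : ℝ) ^ (-j) * (x + n)) ∈ G) →
              y ((2 : ℝ) ^ (-j) * (x + n)) = 0 := by
          intro n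
          have := ae_scale hzG ((2 : ℝ) ^ (-j)) (-((2 : ℝ) ^ (-j) * n)) (two_zpow_ne _)
          filter_upwards [this] with x hx hex
          have e : (2 : ℝ) ^ (-j) * x - -((2 : ℝ) ^ (-j) * n) = (2 : ℝ) ^ (-j) * (x + n) := by ring
          rw [e] at hx
          exact hx hex
        filter_upwards [fold (-j), ae_all_iff.2 h2a] with x hx hx2 hxB
        have hxI := h.B_sub hxB
        have h3 := hx hxI
        rw [Finset.sum_eq_single_of_mem N (by rw [Finset.mem_Icc]; omega)] at h3
        · by_cases hFN : F (x + N) = 0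
          · have h4 : Ψ (x + N) = t := by
              rw [hΨ]; unfold Psi
              have hB1 : wB B N (x + N) = 1 := by
                unfold wB; rw [add_sub_cancel_right]; simp [hxB]
              have hG0 : wG G (x + N) = 0 := by
                by_contra hne
                exact h.not_GB (wG_ne hne) (by simpa using hxB)
              rw [hFN, hB1, hG0]; ring
            rw [h4] at h3
            rcases mul_eq_zero.1 h3 with h5 | h5
            · exfalso
              rw [Complex.conj_ofReal] at h5
              exact ht.ne' (by exact_mod_cast h5)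
            · exact h5
          · obtain ⟨i, hi⟩ := hF.om _ hFN
            apply hx2 N
            refine ⟨i + j, ?_⟩
            rw [← mul_assoc, ← zpow_add₀ (by norm_num : (2 : ℝ) ≠ 0)]
            rwa [show i + j + -j = i by ring]
        · intro n _ hnN
          by_cases hFn : F (x + n) = 0
          · have h4 : Ψ (x + n) = 0 := by
              rw [hΨ]; unfold Psi
              have hG0 : wG G (x + n) = 0 := by
                by_contra hne
                have hG' := wG_ne hne
                have hm : (0 : ℤ) = n := int_II_unique (x := x + n) (by simpa using h.G_sub hG')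
                  (by simpa using hxI)
                rw [← hm] at hG'
                exact h.disj x (by simpa using hG') hxB
              have hB0 : wB B N (x + n) = 0 := by
                by_contra hne
                have := wB_ne hne
                have hm : N = n := int_II_unique (x := x + n) (h.B_sub this) (by simpa using hxI)
                exact hnN hm.symm
              rw [hFn, hG0, hB0]; ring
            rw [h4, map_zero, zero_mul]
          · obtain ⟨i, hi⟩ := hF.om _ hFn
            rw [hx2 n ⟨i + j, ?_⟩, mul_zero]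
            rw [← mul_assoc, ← zpow_add₀ (by norm_num : (2 : ℝ) ≠ 0)]
            rwa [show i + j + -j = i by ring]
      have h5 := ae_scale h2 ((2 : ℝ) ^ j) N (two_zpow_ne j)
      filter_upwards [h5] with ξ hξ hξB
      have := hξ hξB
      rwa [sub_add_cancel, ← mul_assoc, ← zpow_add₀ (by norm_num : (2 : ℝ) ≠ 0), neg_add_cancel,
        zpow_zero, one_mul] at this
    filter_upwards [ae_all_iff.2 h1] with ξ hξ hex
    obtain ⟨j, hj⟩ := hex
    exact hξ j hj
  have hne : ∀ᵐ ξ ∂(volume : Measure ℝ), ξ ≠ 0 := by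
    rw [ae_iff]
    simp
  filter_upwards [hzG, hzB, hne] with ξ h1 h2 h3
  rcases h.or h3 with h4 | h4
  · exact h1 h4
  · exact h2 h4

end Pool.Agent.RieszDense
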