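import Mathlib
import Pool.Agent.Lib_MP_8a7e24_an.Complete

set_option autoImplicit false
open MeasureTheory FourierTransform

namespace Pool.Agent.RieszDense

/-- the dyadic annulus `2^{-(e+1)} < |x| ≤ 2^{-e}` -/
def DD (e : ℕ) : Set ℝ := {x | (2 : ℝ) ^ (-(e : ℤ) - 1) < |x| ∧ |x| ≤ (2 : ℝ) ^ (-(e : ℤ))}

/-- the translation number -/
def NN (e : ℕ) : ℤ := 2 ^ e + 1

/-- the dilation exponent -/
def MM (e : ℕ) : ℤ := 2 * e + 1

/-- the expanding affine map -/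
noncomputable def sig (e : ℕ) (x : ℝ) : ℝ := (2 : ℝ) ^ (MM e) * x - NN e

/-- the complementary part of the unit interval -/
def BB (e : ℕ) : Set ℝ := {x | ∃ m : ℕ, (sig e)^[m] x ∈ II \ DD e}

/-- the part of the annulus used in the wavelet set -/
def GG (e : ℕ) : Set ℝ := II \ BB e

lemma measurableSet_DD (e : ℕ) : MeasurableSet (DD e) := by
  unfold DD
  exact (measurableSet_lt measurable_const measurable_norm).inter
    (measurableSet_le measurable_norm measurable_const)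

lemma measurable_sig (e : ℕ) : Measurable (sig e) := by
  unfold sig; fun_prop

lemma measurableSet_BB (e : ℕ) : MeasurableSet (BB e) := by
  have : BB e = ⋃ m : ℕ, ((sig e)^[m]) ⁻¹' (II \ DD e) := by
    ext x; simp [BB]
  rw [this]
  exact MeasurableSet.iUnion fun m =>
    ((measurable_sig e).iterate m) (measurableSet_II.diff (measurableSet_DD e))

lemma measurableSet_GG (e : ℕ) : MeasurableSet (GG e) :=
  measurableSet_II.diff (measurableSet_BB e)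

lemma DD_sub (e : ℕ) (he : 2 ≤ e) : DD e ⊆ II := by
  intro x hx
  obtain ⟨_, h2⟩ := hx
  have h3 : (2 : ℝ) ^ (-(e : ℤ)) ≤ (2 : ℝ) ^ (-(2 : ℤ)) := by
    apply zpow_le_zpow_right₀ (by norm_num)
    omega
  have h4 : |x| ≤ 1/4 := by
    refine h2.trans (h3.trans ?_)
    norm_num
  rw [abs_le] at h4
  constructor
  · linarith [h4.1]
  · linarith [h4.2]

lemma sig_range (e : ℕ) {x : ℝ} (hx : sig e x ∈ II) :
    (2 : ℝ) ^ (-(e : ℤ) - 1) * (1 + (2 : ℝ) ^ (-(e : ℤ) - 1)) < x ∧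
      x ≤ (2 : ℝ) ^ (-(e : ℤ) - 1) * (1 + 3 * (2 : ℝ) ^ (-(e : ℤ) - 1)) := by
  obtain ⟨h1, h2⟩ := hx
  unfold sig NN at h1 h2
  set q : ℝ := (2 : ℝ) ^ (-(e : ℤ) - 1) with hq
  have hq0 : 0 < q := by positivity
  have hM : (2 : ℝ) ^ (MM e) * (2 * q * q) = 1 := by
    rw [hq, MM]
    rw [show (2 : ℝ) * (2 : ℝ) ^ (-(e : ℤ) - 1) * (2 : ℝ) ^ (-(e : ℤ) - 1) =
      (2 : ℝ) ^ (1 : ℤ) * (2 : ℝ) ^ (-(e : ℤ) - 1) * (2 : ℝ) ^ (-(e : ℤ) - 1) by norm_num]
    rw [← zpow_add₀ (by norm_num : (2 : ℝ) ≠ 0), ← zpow_add₀ (by norm_num : (2 : ℝ) ≠ 0),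
      ← zpow_add₀ (by norm_num : (2 : ℝ) ≠ 0)]
    rw [show (2 * (e : ℤ) + 1 + (1 + (-(e : ℤ) - 1) + (-(e : ℤ) - 1))) = 0 by ring, zpow_zero]
  have hE : (2 : ℝ) ^ e * (2 * q) = 1 := by
    rw [hq]
    rw [show (2 : ℝ) * (2 : ℝ) ^ (-(e : ℤ) - 1) =
      (2 : ℝ) ^ (1 : ℤ) * (2 : ℝ) ^ (-(e : ℤ) - 1) by norm_num]
    rw [← zpow_natCast, ← zpow_add₀ (by norm_num : (2 : ℝ) ≠ 0),
      ← zpow_add₀ (by norm_num : (2 : ℝ) ≠ 0)]
    rw [show ((e : ℤ) + (1 + (-(e : ℤ) - 1))) = 0 by ring, zpow_zero]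
  have hx : x = ((2 : ℝ) ^ (MM e) * x) * (2 * q * q) := by
    rw [mul_right_comm, hM, one_mul]
  push_cast at h1 h2
  set Y := (2 : ℝ) ^ (MM e) * x with hY
  set E := (2 : ℝ) ^ e with hE'
  have h2q : 0 < 2 * q * q := by positivity
  constructor
  · have : (E + 1/2) * (2 * q * q) < Y * (2 * q * q) := by
      apply mul_lt_mul_of_pos_right _ h2q
      linarith
    have e1 : (E + 1/2) * (2 * q * q) = q * (1 + q) := by
      have : E * (2 * q) * q = q := by rw [hE, one_mul]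
      nlinarith
    rw [hx]; linarith
  · have : Y * (2 * q * q) ≤ (E + 3/2) * (2 * q * q) := by
      apply mul_le_mul_of_nonneg_right _ h2q.le
      linarith
    have e1 : (E + 3/2) * (2 * q * q) = q * (1 + 3 * q) := by
      have : E * (2 * q) * q = q := by rw [hE, one_mul]
      nlinarith
    rw [hx]; linarith

lemma two_q (e : ℕ) : (2 : ℝ) ^ (-(e : ℤ)) = 2 * (2 : ℝ) ^ (-(e : ℤ) - 1) := by
  rw [show (2 : ℝ) * (2 : ℝ) ^ (-(e : ℤ) - 1) =
      (2 : ℝ) ^ (1 : ℤ) * (2 : ℝ) ^ (-(e : ℤ) - 1) by norm_num,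
    ← zpow_add₀ (by norm_num : (2 : ℝ) ≠ 0)]
  congr 1; ring

lemma q_le (e : ℕ) (he : 2 ≤ e) : (2 : ℝ) ^ (-(e : ℤ) - 1) ≤ 1/8 := by
  have : (2 : ℝ) ^ (-(e : ℤ) - 1) ≤ (2 : ℝ) ^ (-(3 : ℤ)) := by
    apply zpow_le_zpow_right₀ (by norm_num)
    omega
  refine this.trans ?_
  norm_num

lemma sig_II_DD (e : ℕ) (he : 2 ≤ e) {x : ℝ} (hx : sig e x ∈ II) : x ∈ DD e := by
  obtain ⟨h1, h2⟩ := sig_range e hx
  have hq0 : (0 : ℝ) < (2 : ℝ) ^ (-(e : ℤ) - 1) := by positivity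
  have hq1 := q_le e he
  have hx0 : 0 < x := lt_trans (by positivity) h1
  unfold DD
  rw [Set.mem_ofPred_eq, abs_of_pos hx0, two_q]
  constructor
  · nlinarith
  · nlinarith

lemma BB_sub (e : ℕ) (he : 2 ≤ e) : BB e ⊆ II := by
  have : ∀ (m : ℕ) (x : ℝ), (sig e)^[m] x ∈ II \ DD e → x ∈ II := by
    intro m
    induction m with
    | zero => intro x hx; exact hx.1
    | succ m ih =>
      intro x hx
      rw [Function.iterate_succ_apply] at hx
      exact DD_sub e he (sig_II_DD e he (ih _ hx))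
  intro x hx
  obtain ⟨m, hm⟩ := hx
  exact this m x hm

lemma zpow_two_lt {a b : ℤ} (h : (2 : ℝ) ^ a < (2 : ℝ) ^ b) : a < b :=
  (zpow_lt_zpow_iff_right₀ (by norm_num : (1 : ℝ) < 2)).1 h

lemma zpow_two_le {a b : ℤ} (h : (2 : ℝ) ^ a ≤ (2 : ℝ) ^ b) : a ≤ b :=
  (zpow_le_zpow_iff_right₀ (by norm_num : (1 : ℝ) < 2)).1 h

theorem isW (e : ℕ) (he : 2 ≤ e) : IsW (DD e) (GG e) (BB e) (NN e) (MM e) where
  mD := measurableSet_DD e
  mG := measurableSet_GG e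
  mB := measurableSet_BB e
  union := fun x => by
    constructor
    · intro hx
      by_cases hB : x ∈ BB e
      · exact Or.inr hB
      · exact Or.inl ⟨hx, hB⟩
    · rintro (hx | hx)
      · exact hx.1
      · exact BB_sub e he hx
  disj := fun x hx => hx.2
  GD := fun x hx => by
    by_contra hD
    exact hx.2 ⟨0, hx.1, hD⟩
  tile := fun x => by
    constructor
    · intro hx
      have hx' : sig e x ∈ BB e := hx
      have h1 := sig_II_DD e he (BB_sub e he hx')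
      refine ⟨h1, fun hG => hG.2 ?_⟩
      obtain ⟨m, hm⟩ := hx'
      exact ⟨m + 1, by rwa [Function.iterate_succ_apply]⟩
    · rintro ⟨hD, hG⟩
      have hI := DD_sub e he hD
      have hB : x ∈ BB e := by
        by_contra hB
        exact hG ⟨hI, hB⟩
      obtain ⟨m, hm⟩ := hB
      cases m with
      | zero => exact absurd hD hm.2
      | succ m =>
        rw [Function.iterate_succ_apply] at hm
        exact ⟨m, hm⟩
  cover := fun x hx => by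
    obtain ⟨k, hk1, hk2⟩ := exists_mem_Ioc_zpow (abs_pos.2 hx) (one_lt_two : (1 : ℝ) < 2)
    refine ⟨-(e : ℤ) - 1 - k, ?_⟩
    unfold DD
    rw [Set.mem_ofPred_eq, abs_mul, abs_of_pos (two_zpow_pos _)]
    have h2 : (0 : ℝ) < (2 : ℝ) ^ (-(e : ℤ) - 1 - k) := two_zpow_pos _
    constructor
    · calc (2 : ℝ) ^ (-(e : ℤ) - 1) = (2 : ℝ) ^ (-(e : ℤ) - 1 - k) * (2 : ℝ) ^ k := by
            rw [← zpow_add₀ (by norm_num : (2 : ℝ) ≠ 0)]; congr 1; ring
        _ < _ := mul_lt_mul_of_pos_left hk1 h2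
    · calc _ ≤ (2 : ℝ) ^ (-(e : ℤ) - 1 - k) * (2 : ℝ) ^ (k + 1) :=
            mul_le_mul_of_nonneg_left hk2 h2.le
        _ = _ := by
            rw [← zpow_add₀ (by norm_num : (2 : ℝ) ≠ 0)]; congr 1; ring
  uniq := fun x hx j hj => by
    unfold DD at hx hj
    rw [Set.mem_ofPred_eq] at hx hj
    rw [abs_mul, abs_of_pos (two_zpow_pos _)] at hj
    obtain ⟨a1, a2⟩ := hx
    obtain ⟨b1, b2⟩ := hj
    have h2 : (0 : ℝ) < (2 : ℝ) ^ j := two_zpow_pos _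
    have c1 : (2 : ℝ) ^ (j + (-(e : ℤ) - 1)) < (2 : ℝ) ^ (-(e : ℤ)) := by
      rw [zpow_add₀ (by norm_num : (2 : ℝ) ≠ 0)]
      exact lt_of_lt_of_le (mul_lt_mul_of_pos_left a1 h2) b2
    have c2 : (2 : ℝ) ^ (-(e : ℤ) - 1) < (2 : ℝ) ^ (j + -(e : ℤ)) := by
      rw [zpow_add₀ (by norm_num : (2 : ℝ) ≠ 0)]
      exact lt_of_lt_of_le b1 (mul_le_mul_of_nonneg_left a2 h2.le)
    have d1 := zpow_two_lt c1
    have d2 := zpow_two_lt c2
    omega

end Pool.Agent.RieszDense
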