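import Mathlib
import Pool.Agent.Lib_MP_8a7e24_an.Construct

set_option autoImplicit false
open MeasureTheory FourierTransform

namespace Pool.Agent.RieszDense

/-- The good set on which the truncated function is kept. -/
def Good (f : ℝ → ℂ) (n : ℕ) : Set ℝ :=
  {x | ‖f x‖ ≤ n ∧ (2 : ℝ) ^ (-(n : ℤ)) ≤ |x| ∧ |x| ≤ (2 : ℝ) ^ (n : ℤ) ∧
    (∀ m : ℤ, x - m ∉ GG (n + 2)) ∧ (∀ j : ℤ, (2 : ℝ) ^ j * x - NN (n + 2) ∉ BB (n + 2))}

lemma measurableSet_Good {f : ℝ → ℂ} (hf : Measurable f) (n : ℕ) : MeasurableSet (Good f n) := by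
  unfold Good
  refine (measurableSet_le hf.norm measurable_const).inter ?_
  refine (measurableSet_le measurable_const measurable_norm).inter ?_
  refine (measurableSet_le measurable_norm measurable_const).inter ?_
  refine MeasurableSet.inter ?_ ?_
  · have : {x : ℝ | ∀ m : ℤ, x - m ∉ GG (n + 2)} = ⋂ m : ℤ, (fun x : ℝ => x - m) ⁻¹' (GG (n + 2))ᶜ := by
      ext x; simp
    change MeasurableSet {x : ℝ | ∀ m : ℤ, x - m ∉ GG (n + 2)}
    rw [this]
    exact MeasurableSet.iInter fun m => (by fun_prop : Measurable fun x : ℝ => x - m)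
      (measurableSet_GG (n + 2)).compl
  · have : {x : ℝ | ∀ j : ℤ, (2 : ℝ) ^ j * x - NN (n + 2) ∉ BB (n + 2)} =
        ⋂ j : ℤ, (fun x : ℝ => (2 : ℝ) ^ j * x - NN (n + 2)) ⁻¹' (BB (n + 2))ᶜ := by
      ext x; simp
    change MeasurableSet {x : ℝ | ∀ j : ℤ, (2 : ℝ) ^ j * x - NN (n + 2) ∉ BB (n + 2)}
    rw [this]
    exact MeasurableSet.iInter fun j => (by fun_prop : Measurable fun x : ℝ =>
      (2 : ℝ) ^ j * x - NN (n + 2)) (measurableSet_BB (n + 2)).compl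

lemma nice {f : ℝ → ℂ} (hf : Measurable f) (hf2 : MemLp f 2 (volume : Measure ℝ)) (n : ℕ) :
    Nice (GG (n + 2)) (BB (n + 2)) ((Good f n).indicator f) n (2 ^ n) (2 * n + 2) where
  mem := hf2.indicator (measurableSet_Good hf n)
  bdd := fun x => by
    by_cases hx : x ∈ Good f n
    · rw [Set.indicator_of_mem hx]; exact hx.1
    · rw [Set.indicator_of_notMem hx, norm_zero]; positivity
  supp := fun x hx => by
    have hxG := Set.mem_of_indicator_ne_zero hx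
    obtain ⟨m, hm⟩ := exists_int_II x
    have hB : x - m ∈ BB (n + 2) := by
      rcases ((isW (n + 2) (by omega)).union _).1 hm with h | h
      · exact absurd h (hxG.2.2.2.1 m)
      · exact h
    refine ⟨m, ?_, hB⟩
    have h1 := hxG.2.2.1
    rw [zpow_natCast, abs_le] at h1
    obtain ⟨h2, h3⟩ := hm
    rw [Finset.mem_Icc]
    have a1 : (m : ℝ) < ((2 ^ n : ℕ) : ℤ) + 1 := by push_cast; linarith [h1.2]
    have a2 : (-((2 ^ n : ℕ) : ℤ) : ℝ) - 1 < m := by push_cast; linarith [h1.1]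
    have b1 : m < ((2 ^ n : ℕ) : ℤ) + 1 := by exact_mod_cast a1
    have b2 : -((2 ^ n : ℕ) : ℤ) - 1 < m := by exact_mod_cast a2
    constructor <;> omega
  few := fun ξ => by
    by_cases hξ : ξ = 0
    · refine ⟨∅, by simp, fun j hj => ?_⟩
      have hxG := Set.mem_of_indicator_ne_zero hj
      have h1 := hxG.2.1
      rw [hξ, mul_zero, abs_zero] at h1
      exact absurd h1 (not_le.2 (two_zpow_pos _))
    · obtain ⟨k, hk1, hk2⟩ := exists_mem_Ioc_zpow (abs_pos.2 hξ) (one_lt_two : (1 : ℝ) < 2)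
      refine ⟨Finset.Icc (k - n) (k + n + 1), ?_, fun j hj => ?_⟩
      · rw [Int.card_Icc]; omega
      · have hxG := Set.mem_of_indicator_ne_zero hj
        have h1 := hxG.2.1
        have h2 := hxG.2.2.1
        rw [abs_mul, abs_of_pos (two_zpow_pos _)] at h1 h2
        have hp : (0 : ℝ) < (2 : ℝ) ^ (-j) := two_zpow_pos _
        have c1 : (2 : ℝ) ^ (-j + k) < (2 : ℝ) ^ (n : ℤ) := by
          rw [zpow_add₀ (by norm_num : (2 : ℝ) ≠ 0)]
          exact lt_of_lt_of_le (mul_lt_mul_of_pos_left hk1 hp) h2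
        have c2 : (2 : ℝ) ^ (-(n : ℤ)) ≤ (2 : ℝ) ^ (-j + (k + 1)) := by
          rw [zpow_add₀ (by norm_num : (2 : ℝ) ≠ 0)]
          exact h1.trans (mul_le_mul_of_nonneg_left hk2 hp.le)
        have d1 := zpow_two_lt c1
        have d2 := zpow_two_le c2
        rw [Finset.mem_Icc]
        constructor <;> omega
  om := fun x hx => by
    have hxG := Set.mem_of_indicator_ne_zero hx
    have hx0 : x ≠ 0 := by
      intro h0
      have h1 := hxG.2.1
      rw [h0, abs_zero] at h1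
      exact absurd h1 (not_le.2 (two_zpow_pos _))
    rcases (isW (n + 2) (by omega)).or hx0 with h | ⟨j, hj⟩
    · exact h
    · exact absurd hj (hxG.2.2.2.2 j)

/-- Every nonzero non-integer point is eventually good. -/
lemma eventually_good (f : ℝ → ℂ) {x : ℝ} (hx0 : x ≠ 0) (hxZ : ∀ m : ℤ, x ≠ m) :
    ∀ᶠ n : ℕ in Filter.atTop, x ∈ Good f n := by
  have hlim : Filter.Tendsto (fun n : ℕ => (1/2 : ℝ) ^ n) Filter.atTop (nhds 0) :=
    tendsto_pow_atTop_nhds_zero_of_lt_one (by norm_num) (by norm_num)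
  have hz : ∀ n : ℕ, (2 : ℝ) ^ (-(n : ℤ)) = (1/2 : ℝ) ^ n := by
    intro n; rw [zpow_neg, zpow_natCast, one_div, inv_pow]
  have e1 : ∀ᶠ n : ℕ in Filter.atTop, ‖f x‖ ≤ n := by
    filter_upwards [Filter.eventually_ge_atTop ⌈‖f x‖⌉₊] with n hn
    exact (Nat.le_ceil _).trans (by exact_mod_cast hn)
  have e2 : ∀ᶠ n : ℕ in Filter.atTop, (2 : ℝ) ^ (-(n : ℤ)) ≤ |x| := by
    filter_upwards [hlim.eventually (gt_mem_nhds (abs_pos.2 hx0))] with n hn
    rw [hz]; exact hn.le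
  have e3 : ∀ᶠ n : ℕ in Filter.atTop, |x| ≤ (2 : ℝ) ^ (n : ℤ) := by
    have := (tendsto_pow_atTop_atTop_of_one_lt (one_lt_two : (1 : ℝ) < 2)).eventually_ge_atTop |x|
    filter_upwards [this] with n hn
    rwa [zpow_natCast]
  have e4 : ∀ᶠ n : ℕ in Filter.atTop, ∀ m : ℤ, x - m ∉ GG (n + 2) := by
    have hd : 0 < |x - round x| := abs_pos.2 (sub_ne_zero.2 (hxZ _))
    filter_upwards [hlim.eventually (gt_mem_nhds hd)] with n hn m hm
    have h1 := (isW (n + 2) (by omega)).GD hm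
    have h2 : |x - m| ≤ (2 : ℝ) ^ (-((n + 2 : ℕ) : ℤ)) := h1.2
    have h3 : |x - round x| ≤ |x - m| := round_le x m
    rw [hz] at h2
    have h4 : (1/2 : ℝ) ^ (n + 2) ≤ (1/2 : ℝ) ^ n :=
      pow_le_pow_of_le_one (by norm_num) (by norm_num) (by omega)
    linarith
  have e5 : ∀ᶠ n : ℕ in Filter.atTop, ∀ j : ℤ, (2 : ℝ) ^ j * x - NN (n + 2) ∉ BB (n + 2) := by
    obtain ⟨k, hk1, hk2⟩ := exists_mem_Ioc_zpow (abs_pos.2 hx0) (one_lt_two : (1 : ℝ) < 2)
    have hk3 : 1 < (2 : ℝ) ^ (-k) * |x| := by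
      have : (2 : ℝ) ^ (-k) * (2 : ℝ) ^ k = 1 := by
        rw [← zpow_add₀ (by norm_num : (2 : ℝ) ≠ 0), neg_add_cancel, zpow_zero]
      rw [← this]
      exact mul_lt_mul_of_pos_left hk1 (two_zpow_pos _)
    have hlim2 : Filter.Tendsto (fun n : ℕ => 1 + 3 * (1/2 : ℝ) ^ n) Filter.atTop (nhds (1 + 3 * 0)) :=
      (hlim.const_mul 3).const_add 1
    rw [mul_zero, add_zero] at hlim2
    filter_upwards [hlim2.eventually (gt_mem_nhds hk3)] with n hn j hj
    have hI := BB_sub (n + 2) (by omega) hj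
    have hW := isW (n + 2) (by omega)
    -- put x' = 2^(j - M) x
    set e : ℕ := n + 2 with he
    have hsig : sig e ((2 : ℝ) ^ (j - MM e) * x) ∈ II := by
      unfold sig
      rw [← mul_assoc, ← zpow_add₀ (by norm_num : (2 : ℝ) ≠ 0)]
      rwa [show MM e + (j - MM e) = j by ring]
    obtain ⟨r1, r2⟩ := sig_range e hsig
    set q : ℝ := (2 : ℝ) ^ (-(e : ℤ) - 1) with hq
    have hq0 : 0 < q := two_zpow_pos _
    have hq8 : q ≤ 1/8 := q_le e (by omega)
    have hqi : (2 : ℝ) ^ ((e : ℤ) + 1) * q = 1 := by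
      rw [hq, ← zpow_add₀ (by norm_num : (2 : ℝ) ≠ 0)]
      rw [show (e : ℤ) + 1 + (-(e : ℤ) - 1) = 0 by ring, zpow_zero]
    have hx'pos : 0 < (2 : ℝ) ^ (j - MM e) * x := lt_trans (by positivity) r1
    have hxpos : 0 < x := (pos_iff_pos_of_mul_pos hx'pos).1 (two_zpow_pos _)
    rw [abs_of_pos hxpos] at hk1 hk2 hk3 hn
    set i : ℤ := (e : ℤ) + 1 + (j - MM e) with hi
    have hx'' : (2 : ℝ) ^ ((e : ℤ) + 1) * ((2 : ℝ) ^ (j - MM e) * x) = (2 : ℝ) ^ i * x := by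
      rw [← mul_assoc, ← zpow_add₀ (by norm_num : (2 : ℝ) ≠ 0)]
    have s1 : 1 + q < (2 : ℝ) ^ i * x := by
      rw [← hx'']
      calc 1 + q = (2 : ℝ) ^ ((e : ℤ) + 1) * (q * (1 + q)) := by rw [← mul_assoc, hqi, one_mul]
        _ < _ := mul_lt_mul_of_pos_left r1 (two_zpow_pos _)
    have s2 : (2 : ℝ) ^ i * x ≤ 1 + 3 * q := by
      rw [← hx'']
      calc _ ≤ (2 : ℝ) ^ ((e : ℤ) + 1) * (q * (1 + 3 * q)) :=
            mul_le_mul_of_nonneg_left r2 (two_zpow_pos _).le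
        _ = 1 + 3 * q := by rw [← mul_assoc, hqi, one_mul]
    -- i = -k
    have hik : i = -k := by
      have hp : (0 : ℝ) < (2 : ℝ) ^ i := two_zpow_pos _
      have c1 : (2 : ℝ) ^ (i + k) < (2 : ℝ) ^ (1 : ℤ) := by
        rw [zpow_add₀ (by norm_num : (2 : ℝ) ≠ 0), zpow_one]
        have := mul_lt_mul_of_pos_left hk1 hp
        linarith
      have c2 : (2 : ℝ) ^ (0 : ℤ) < (2 : ℝ) ^ (i + (k + 1)) := by
        rw [zpow_add₀ (by norm_num : (2 : ℝ) ≠ 0) i, zpow_zero]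
        have := mul_le_mul_of_nonneg_left hk2 hp.le
        linarith
      have d1 := zpow_two_lt c1
      have d2 := zpow_two_lt c2
      omega
    rw [hik] at s2
    have hqn : q ≤ (1/2 : ℝ) ^ n := by
      rw [hq, he, ← hz]
      apply zpow_le_zpow_right₀ (by norm_num)
      push_cast
      omega
    linarith
  filter_upwards [e1, e2, e3, e4, e5] with n h1 h2 h3 h4 h5
  exact ⟨h1, h2, h3, h4, h5⟩

lemma integral_norm_indicator_sq_le {S : Set ℝ} (hS : MeasurableSet S) (hS2 : S ⊆ II) :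
    ∫ x, ‖S.indicator (fun _ => (1 : ℂ)) x‖ ^ 2 ≤ 1 := by
  have h1 : ∀ x, ‖S.indicator (fun _ => (1 : ℂ)) x‖ ^ 2 = S.indicator (fun _ => (1 : ℝ)) x := by
    intro x
    by_cases hx : x ∈ S
    · simp [hx]
    · simp [hx]
  simp_rw [h1]
  rw [integral_indicator hS]
  simp only [integral_const, smul_eq_mul, mul_one, MeasurableSet.univ, measureReal_restrict_apply, Set.univ_inter]
  rw [measureReal_def]
  have h2 : volume S ≤ 1 := (measure_mono hS2).trans volume_II.le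
  exact ENNReal.toReal_le_of_le_ofReal (by norm_num) (by simpa using h2)

/-- Approximation on the Fourier side. -/
theorem approx {f : ℝ → ℂ} (hf : Measurable f) (hf2 : MemLp f 2 (volume : Measure ℝ)) {ε : ℝ}
    (hε : 0 < ε) :
    ∃ (n : ℕ) (t : ℝ), 0 < t ∧
      ∫ x, ‖f x - Psi (GG (n + 2)) (BB (n + 2)) (NN (n + 2)) ((Good f n).indicator f) t x‖ ^ 2 < ε := by
  have hfi := (memLp_two_iff' hf2.1).1 hf2
  have htend : Filter.Tendsto (fun n : ℕ => ∫ x, ‖(Good f n)ᶜ.indicator f x‖ ^ 2) Filter.atTop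
      (nhds (∫ x : ℝ, (0 : ℝ))) := by
    apply tendsto_integral_of_dominated_convergence (fun x => ‖f x‖ ^ 2)
    · intro n
      exact ((hf.indicator (measurableSet_Good hf n).compl).norm.pow_const 2).aestronglyMeasurable
    · exact hfi
    · intro n
      refine Filter.Eventually.of_forall fun x => ?_
      rw [Real.norm_of_nonneg (by positivity)]
      by_cases hx : x ∈ (Good f n)ᶜ
      · rw [Set.indicator_of_mem hx]
      · rw [Set.indicator_of_notMem hx, norm_zero, zero_pow two_ne_zero]; positivity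
    · have h1 : ∀ᵐ (x : ℝ) ∂(volume : Measure ℝ), x ≠ 0 := by rw [ae_iff]; simp
      have h2 : ∀ᵐ (x : ℝ) ∂(volume : Measure ℝ), ∀ m : ℤ, x ≠ (m : ℝ) := by
        rw [ae_all_iff]
        intro m
        rw [ae_iff]; simp
      filter_upwards [h1, h2] with x hx0 hxZ
      apply tendsto_const_nhds.congr'
      filter_upwards [eventually_good f hx0 hxZ] with n hn
      rw [Set.indicator_of_notMem (by simpa using hn)]
      simp
  rw [integral_zero] at htend
  have hev := htend.eventually (gt_mem_nhds (show (0 : ℝ) < ε / 8 by positivity))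
  obtain ⟨n, hn⟩ := hev.exists
  have hW := isW (n + 2) (by omega)
  set t : ℝ := Real.sqrt (ε / 64) with ht
  have ht0 : 0 < t := by rw [ht]; positivity
  have ht2 : t ^ 2 = ε / 64 := by rw [ht, Real.sq_sqrt (by positivity)]
  refine ⟨n, t, ht0, ?_⟩
  have iG := (memLp_two_iff' hW.memLp_wG.1).1 hW.memLp_wG
  have iB := (memLp_two_iff' hW.memLp_wB.1).1 hW.memLp_wB
  have hbad : MemLp ((Good f n)ᶜ.indicator f) 2 (volume : Measure ℝ) :=
    hf2.indicator (measurableSet_Good hf n).compl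
  have iBad := (memLp_two_iff' hbad.1).1 hbad
  have hpt : ∀ x, ‖f x - Psi (GG (n + 2)) (BB (n + 2)) (NN (n + 2)) ((Good f n).indicator f) t x‖ ^ 2
      ≤ 2 * ‖(Good f n)ᶜ.indicator f x‖ ^ 2 + (4 * t ^ 2 * ‖wG (GG (n + 2)) x‖ ^ 2 +
        4 * t ^ 2 * ‖wB (BB (n + 2)) (NN (n + 2)) x‖ ^ 2) := by
    intro x
    have e1 : f x - Psi (GG (n + 2)) (BB (n + 2)) (NN (n + 2)) ((Good f n).indicator f) t x =
        (Good f n)ᶜ.indicator f x - (t : ℂ) * (wG (GG (n + 2)) x + wB (BB (n + 2)) (NN (n + 2)) x) := by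
      unfold Psi
      have : f x = (Good f n).indicator f x + (Good f n)ᶜ.indicator f x := by
        rw [← Pi.add_apply, Set.indicator_self_add_compl]
      nth_rewrite 1 [this]
      ring
    rw [e1]
    set a := (Good f n)ᶜ.indicator f x
    set b := wG (GG (n + 2)) x
    set c := wB (BB (n + 2)) (NN (n + 2)) x
    have e2 : ‖a - (t : ℂ) * (b + c)‖ ≤ ‖a‖ + t * (‖b‖ + ‖c‖) := by
      refine (norm_sub_le _ _).trans ?_
      rw [norm_mul, Complex.norm_real, Real.norm_eq_abs, abs_of_pos ht0]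
      gcongr
      exact norm_add_le _ _
    calc ‖a - (t : ℂ) * (b + c)‖ ^ 2 ≤ (‖a‖ + t * (‖b‖ + ‖c‖)) ^ 2 := by gcongr
      _ ≤ 2 * ‖a‖ ^ 2 + (4 * t ^ 2 * ‖b‖ ^ 2 + 4 * t ^ 2 * ‖c‖ ^ 2) := by
        nlinarith [sq_nonneg (‖a‖ - t * (‖b‖ + ‖c‖)), sq_nonneg (t * (‖b‖ - ‖c‖))]
  have hint : Integrable (fun x => 2 * ‖(Good f n)ᶜ.indicator f x‖ ^ 2 +
      (4 * t ^ 2 * ‖wG (GG (n + 2)) x‖ ^ 2 +
        4 * t ^ 2 * ‖wB (BB (n + 2)) (NN (n + 2)) x‖ ^ 2)) (volume : Measure ℝ) :=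
    (iBad.const_mul _).add ((iG.const_mul _).add (iB.const_mul _))
  have hint2 : Integrable (fun x => 4 * t ^ 2 * ‖wG (GG (n + 2)) x‖ ^ 2 +
        4 * t ^ 2 * ‖wB (BB (n + 2)) (NN (n + 2)) x‖ ^ 2) (volume : Measure ℝ) :=
    (iG.const_mul _).add (iB.const_mul _)
  have bG : ∫ x, ‖wG (GG (n + 2)) x‖ ^ 2 ≤ 1 := integral_norm_indicator_sq_le hW.mG hW.G_sub
  have bB : ∫ x, ‖wB (BB (n + 2)) (NN (n + 2)) x‖ ^ 2 ≤ 1 := by
    unfold wB
    rw [integral_sub_right_eq_self (fun x => ‖(BB (n + 2)).indicator (fun _ => (1 : ℂ)) x‖ ^ 2)]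
    exact integral_norm_indicator_sq_le hW.mB hW.B_sub
  calc _ ≤ ∫ x, (2 * ‖(Good f n)ᶜ.indicator f x‖ ^ 2 + (4 * t ^ 2 * ‖wG (GG (n + 2)) x‖ ^ 2 +
        4 * t ^ 2 * ‖wB (BB (n + 2)) (NN (n + 2)) x‖ ^ 2)) := by
        apply integral_mono_of_nonneg
        · exact Filter.Eventually.of_forall fun x => by positivity
        · exact hint
        · exact Filter.Eventually.of_forall hpt
    _ = 2 * (∫ x, ‖(Good f n)ᶜ.indicator f x‖ ^ 2) +
        (4 * t ^ 2 * (∫ x, ‖wG (GG (n + 2)) x‖ ^ 2) +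
          4 * t ^ 2 * ∫ x, ‖wB (BB (n + 2)) (NN (n + 2)) x‖ ^ 2) := by
        rw [integral_add (iBad.const_mul _) hint2, integral_add (iG.const_mul _) (iB.const_mul _),
          integral_const_mul, integral_const_mul, integral_const_mul]
    _ < ε := by
        have c1 : 4 * t ^ 2 * (∫ x, ‖wG (GG (n + 2)) x‖ ^ 2) ≤ 4 * t ^ 2 * 1 := by gcongr
        have c2 : 4 * t ^ 2 * (∫ x, ‖wB (BB (n + 2)) (NN (n + 2)) x‖ ^ 2) ≤ 4 * t ^ 2 * 1 := by gcongr
        rw [ht2] at c1 c2 ⊢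
        linarith

end Pool.Agent.RieszDense
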