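import Mathlib
import Pool.Agent.Lib_MP_8a7e24_an.Approx

set_option autoImplicit false
open MeasureTheory FourierTransform

namespace Pool.Agent.RieszDense

lemma Uc_sum_ae (ψ : Lp ℂ 2 (volume : Measure ℝ)) (s : Finset (ℤ × ℤ)) (c : ℤ × ℤ → ℂ) :
    (∑ p ∈ s, c p • Uc p ψ : Lp ℂ 2 (volume : Measure ℝ)) =ᵐ[volume]
      fun x => ∑ p ∈ s, c p * U p ψ x := by
  classical
  induction s using Finset.induction_on with
  | empty =>
    simp only [Finset.sum_empty]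
    exact Lp.coeFn_zero _ _ _
  | insert p s hp ih =>
    rw [Finset.sum_insert hp]
    have e1 := (memLp_U p (Lp.memLp ψ)).coeFn_toLp
    filter_upwards [Lp.coeFn_add (c p • Uc p ψ) (∑ q ∈ s, c q • Uc q ψ), ih,
      Lp.coeFn_smul (c p) (Uc p ψ), e1] with x a1 a2 a3 a4
    rw [a1, Pi.add_apply, a2, a3, Pi.smul_apply, Finset.sum_insert hp, smul_eq_mul]
    unfold Uc
    rw [a4]

lemma Vc_sum_ae {Ψ : ℝ → ℂ} (hΨ : MemLp Ψ 2 (volume : Measure ℝ)) (s : Finset (ℤ × ℤ))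
    (c : ℤ × ℤ → ℂ) :
    (∑ p ∈ s, c p • Vc p hΨ.toLp : Lp ℂ 2 (volume : Measure ℝ)) =ᵐ[volume]
      fun x => ∑ p ∈ s, c p * V p Ψ x := by
  classical
  induction s using Finset.induction_on with
  | empty =>
    simp only [Finset.sum_empty]
    exact Lp.coeFn_zero _ _ _
  | insert p s hp ih =>
    rw [Finset.sum_insert hp]
    have e1 := (memLp_V p (Lp.memLp hΨ.toLp)).coeFn_toLp
    filter_upwards [Lp.coeFn_add (c p • Vc p hΨ.toLp) (∑ q ∈ s, c q • Vc q hΨ.toLp), ih,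
      Lp.coeFn_smul (c p) (Vc p hΨ.toLp), e1, V_congr p hΨ.coeFn_toLp] with x a1 a2 a3 a4 a5
    rw [a1, Pi.add_apply, a2, a3, Pi.smul_apply, Finset.sum_insert hp, smul_eq_mul]
    unfold Vc
    rw [a4, a5]

lemma integral_sub_sum (ψ : Lp ℂ 2 (volume : Measure ℝ)) {g : ℝ → ℂ}
    (hg : MemLp g 2 (volume : Measure ℝ)) (s : Finset (ℤ × ℤ)) (c : ℤ × ℤ → ℂ) :
    ∫ x, ‖g x - ∑ p ∈ s, c p * U p ψ x‖ ^ 2 = ‖hg.toLp - ∑ p ∈ s, c p • Uc p ψ‖ ^ 2 := by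
  rw [norm_lp_sq]
  apply integral_congr_ae
  filter_upwards [Lp.coeFn_sub hg.toLp (∑ p ∈ s, c p • Uc p ψ), Uc_sum_ae ψ s c,
    hg.coeFn_toLp] with x a1 a2 a3
  rw [a1, Pi.sub_apply, a2, a3]

lemma integral_sum (ψ : Lp ℂ 2 (volume : Measure ℝ)) (s : Finset (ℤ × ℤ)) (c : ℤ × ℤ → ℂ) :
    ∫ x, ‖∑ p ∈ s, c p * U p ψ x‖ ^ 2 = ‖∑ p ∈ s, c p • Uc p ψ‖ ^ 2 := by
  rw [norm_lp_sq]
  apply integral_congr_ae
  filter_upwards [Uc_sum_ae ψ s c] with x a2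
  rw [a2]

lemma integral_sum_V {Ψ : ℝ → ℂ} (hΨ : MemLp Ψ 2 (volume : Measure ℝ)) (s : Finset (ℤ × ℤ))
    (c : ℤ × ℤ → ℂ) :
    ∫ x, ‖∑ p ∈ s, c p * V p Ψ x‖ ^ 2 = ‖∑ p ∈ s, c p • Vc p hΨ.toLp‖ ^ 2 := by
  rw [norm_lp_sq]
  apply integral_congr_ae
  filter_upwards [Vc_sum_ae hΨ s c] with x a2
  rw [a2]

/-- Transfer of the norm of a finite combination from time to frequency. -/
lemma transfer {Ψ : ℝ → ℂ} (hΨ : MemLp Ψ 2 (volume : Measure ℝ))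
    (ψ : Lp ℂ 2 (volume : Measure ℝ)) (hψ : 𝓕 ψ = hΨ.toLp) (s : Finset (ℤ × ℤ)) (c : ℤ × ℤ → ℂ) :
    ∫ x, ‖∑ p ∈ s, c p * U p ψ x‖ ^ 2 = ∫ x, ‖∑ p ∈ s, c p * V p Ψ x‖ ^ 2 := by
  rw [integral_sum, integral_sum_V hΨ]
  have h1 : (𝓕 (∑ p ∈ s, c p • Uc p ψ) : Lp ℂ 2 (volume : Measure ℝ)) =
      ∑ p ∈ s, c p • Vc p hΨ.toLp := by
    have : (𝓕 (∑ p ∈ s, c p • Uc p ψ) : Lp ℂ 2 (volume : Measure ℝ)) =
        Lp.fourierTransformₗᵢ ℝ ℂ (∑ p ∈ s, c p • Uc p ψ) := rfl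
    rw [this, map_sum]
    apply Finset.sum_congr rfl
    intro p _
    rw [map_smul]
    congr 1
    rw [← hψ]
    exact fourier_Uc p ψ
  rw [← h1, Lp.norm_fourier_eq]

lemma sum_product_form (s : Finset (ℤ × ℤ)) (c : ℤ × ℤ → ℂ) (H : ℝ → ℂ) (ξ : ℝ) :
    ∑ p ∈ s, c p * V p H ξ =
      SS (s.image Prod.fst) (s.image Prod.snd) (fun p => if p ∈ s then c p else 0) H ξ := by
  unfold SS
  rw [← Finset.sum_product' (f := fun j k => (if (j, k) ∈ s then c (j, k) else 0) * V (j, k) H ξ)]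
  have hsub : s ⊆ (s.image Prod.fst) ×ˢ (s.image Prod.snd) := by
    intro p hp
    rw [Finset.mem_product]
    exact ⟨Finset.mem_image_of_mem _ hp, Finset.mem_image_of_mem _ hp⟩
  rw [← Finset.sum_subset hsub]
  · apply Finset.sum_congr rfl
    intro p hp
    simp [hp]
  · intro p _ hps
    simp [hps]

lemma sum_product_norm (s : Finset (ℤ × ℤ)) (c : ℤ × ℤ → ℂ) :
    ∑ j ∈ s.image Prod.fst, ∑ k ∈ s.image Prod.snd, ‖(if (j, k) ∈ s then c (j, k) else 0)‖ ^ 2 =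
      ∑ p ∈ s, ‖c p‖ ^ 2 := by
  rw [← Finset.sum_product' (f := fun j k => ‖(if (j, k) ∈ s then c (j, k) else 0)‖ ^ 2)]
  have hsub : s ⊆ (s.image Prod.fst) ×ˢ (s.image Prod.snd) := by
    intro p hp
    rw [Finset.mem_product]
    exact ⟨Finset.mem_image_of_mem _ hp, Finset.mem_image_of_mem _ hp⟩
  rw [← Finset.sum_subset hsub]
  · apply Finset.sum_congr rfl
    intro p hp
    simp [hp]
  · intro p _ hps
    simp [hps]

/-- Larson's density problem: the Riesz wavelets are dense in `L²(ℝ)`. -/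
theorem riesz_wavelets_dense (f : ℝ → ℂ) (hf : MemLp f 2 (volume : Measure ℝ)) (ε : ℝ) (hε : 0 < ε) :
    ∃ ψ : ℝ → ℂ, MemLp ψ 2 (volume : Measure ℝ) ∧
      ∫ x, ‖f x - ψ x‖ ^ 2 < ε ∧
      (∃ A B : ℝ, 0 < A ∧ 0 < B ∧
        ∀ s : Finset (ℤ × ℤ), ∀ c : ℤ × ℤ → ℂ,
          A * ∑ p ∈ s, ‖c p‖ ^ 2 ≤ ∫ x, ‖∑ p ∈ s, c p * U p ψ x‖ ^ 2 ∧
          ∫ x, ‖∑ p ∈ s, c p * U p ψ x‖ ^ 2 ≤ B * ∑ p ∈ s, ‖c p‖ ^ 2) ∧
      (∀ g : ℝ → ℂ, MemLp g 2 (volume : Measure ℝ) → ∀ δ : ℝ, 0 < δ →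
        ∃ s : Finset (ℤ × ℤ), ∃ c : ℤ × ℤ → ℂ,
          ∫ x, ‖g x - ∑ p ∈ s, c p * U p ψ x‖ ^ 2 < δ) := by
  set g : Lp ℂ 2 (volume : Measure ℝ) := 𝓕 (hf.toLp) with hg
  have hgm : Measurable g := (Lp.stronglyMeasurable g).measurable
  obtain ⟨n, t, ht, happ⟩ := approx hgm (Lp.memLp g) hε
  have hW := isW (n + 2) (by omega)
  have hN := nice hgm (Lp.memLp g) n
  set Ψ := Psi (GG (n + 2)) (BB (n + 2)) (NN (n + 2)) ((Good g n).indicator g) t with hΨdef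
  have hΨ : MemLp Ψ 2 (volume : Measure ℝ) := hW.memLp_Psi hN.mem t
  set ψ : Lp ℂ 2 (volume : Measure ℝ) := 𝓕⁻ (hΨ.toLp) with hψdef
  have hψ : 𝓕 ψ = hΨ.toLp := by
    rw [hψdef]
    exact (Lp.fourierTransformₗᵢ ℝ ℂ).apply_symm_apply _
  refine ⟨ψ, Lp.memLp ψ, ?_, ?_, ?_⟩
  · have e1 : ∫ x, ‖f x - ψ x‖ ^ 2 = ‖hf.toLp - ψ‖ ^ 2 := by
      rw [norm_lp_sq]
      apply integral_congr_ae
      filter_upwards [Lp.coeFn_sub hf.toLp ψ, hf.coeFn_toLp] with x a1 a2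
      rw [a1, Pi.sub_apply, a2]
    have e2 : ‖hf.toLp - ψ‖ = ‖g - hΨ.toLp‖ := by
      rw [← Lp.norm_fourier_eq (hf.toLp - ψ)]
      congr 1
      have : (𝓕 (hf.toLp - ψ) : Lp ℂ 2 (volume : Measure ℝ)) =
        Lp.fourierTransformₗᵢ ℝ ℂ (hf.toLp - ψ) := rfl
      rw [this, map_sub, ← hψ]
      rfl
    have e3 : ‖g - hΨ.toLp‖ ^ 2 = ∫ x, ‖g x - Ψ x‖ ^ 2 := by
      rw [norm_lp_sq]
      apply integral_congr_ae
      filter_upwards [Lp.coeFn_sub g hΨ.toLp, hΨ.coeFn_toLp] with x a1 a2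
      rw [a1, Pi.sub_apply, a2]
    rw [e1, e2, e3]
    exact happ
  · obtain ⟨A₁, B₁, hA, hB, hR⟩ := riesz_prod hW hN ht
    refine ⟨A₁, B₁, hA, hB, fun s c => ?_⟩
    rw [transfer hΨ ψ hψ]
    have h1 := hR (s.image Prod.fst) (s.image Prod.snd) (fun p => if p ∈ s then c p else 0)
    rw [sum_product_norm s c] at h1
    simp_rw [sum_product_form]
    exact h1
  · intro u hu δ hδ
    set Sp : Submodule ℂ (Lp ℂ 2 (volume : Measure ℝ)) :=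
      Submodule.span ℂ (Set.range fun p => Uc p ψ) with hSp
    have hdense : Sp.topologicalClosure = ⊤ := by
      rw [Submodule.topologicalClosure_eq_top_iff, Submodule.eq_bot_iff]
      intro y hy
      rw [Submodule.mem_orthogonal] at hy
      have h1 : ∀ p : ℤ × ℤ, inner ℂ (Vc p hΨ.toLp) (𝓕 y : Lp ℂ 2 (volume : Measure ℝ)) = 0 := by
        intro p
        have h2 := hy (Uc p ψ) (Submodule.subset_span ⟨p, rfl⟩)
        rw [← hψ, ← fourier_Uc, Lp.inner_fourier_eq]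
        exact h2
      have h3 : ∀ p : ℤ × ℤ, ∫ ξ, (starRingEnd ℂ) (V p Ψ ξ) *
          (𝓕 y : Lp ℂ 2 (volume : Measure ℝ)) ξ = 0 := by
        intro p
        rw [← h1 p, L2.inner_def]
        apply integral_congr_ae
        have e1 := (memLp_V p (Lp.memLp hΨ.toLp)).coeFn_toLp
        filter_upwards [e1, V_congr p hΨ.coeFn_toLp] with x a1 a2
        unfold Vc
        rw [a1, a2, RCLike.inner_apply, mul_comm]
      have h4 := complete_side hW hN ht (Lp.memLp (𝓕 y : Lp ℂ 2 (volume : Measure ℝ))) h3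
      have h5 : (𝓕 y : Lp ℂ 2 (volume : Measure ℝ)) = 0 := by
        apply Lp.ext
        filter_upwards [h4, Lp.coeFn_zero ℂ 2 (volume : Measure ℝ)] with x a1 a2
        rw [a1, a2]; rfl
      have h6 : ‖y‖ = 0 := by rw [← Lp.norm_fourier_eq, h5, norm_zero]
      exact norm_eq_zero.1 h6
    have hmem : hu.toLp ∈ closure (Sp : Set (Lp ℂ 2 (volume : Measure ℝ))) := by
      rw [← Submodule.topologicalClosure_coe, hdense]
      trivial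
    obtain ⟨z, hz, hzd⟩ := Metric.mem_closure_iff.1 hmem (Real.sqrt δ) (by positivity)
    obtain ⟨c, hc⟩ := (Finsupp.mem_span_range_iff_exists_finsupp).1 hz
    refine ⟨c.support, c, ?_⟩
    rw [integral_sub_sum ψ hu]
    have h7 : ∑ p ∈ c.support, c p • Uc p ψ = z := hc
    rw [h7, ← dist_eq_norm]
    calc dist hu.toLp z ^ 2 < Real.sqrt δ ^ 2 := by gcongr
      _ = δ := Real.sq_sqrt hδ.le

end Pool.Agent.RieszDense
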